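import Mathlib
import Pool.Agent.Run7.h867.AM.Conv

/-!
# An inequality between iterated integrals (helper867)

For words `u`, `v` in the letters `z`, `p`, `m`, where `v` is not empty and does not end with `z`, let `Z(u)` be the
number of the letters `z` of `u` and `d(v)` the number of the letters of `v` which are not `z`.  Then on `(0, 1)`
`Z(u) F(u p v) ≤ F(u v) ≤ d(v) (F(u z v) + F(u p v))`.
-/

set_option autoImplicit false

namespace Run7.h867.MZ

open Finset Filter Topology Run7.h867.AM

/-- the number of the letters which are not `z` -/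
def dep : List Lt → ℕ
  | [] => 0
  | Lt.z :: u => dep u
  | _ :: u => dep u + 1

/-- the number of the letters `z` -/
def cz : List Lt → ℕ
  | [] => 0
  | Lt.z :: u => cz u + 1
  | _ :: u => cz u

theorem good_app {v : List Lt} (hv : Good v) (hne : v ≠ []) (u : List Lt) : Good (u ++ v) := by
  induction u with
  | nil => exact hv
  | cons a u ih =>
    refine ⟨fun h => ?_, ih⟩
    exact absurd (List.append_eq_nil_iff.1 h).2 hne

theorem good_cons {v : List Lt} (hv : Good v) (hne : v ≠ []) (a : Lt) : Good (a :: v) :=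
  ⟨fun h => absurd h hne, hv⟩

theorem dF_hd (u : List Lt) {x : ℝ} (hx : |x| < 1) : HasDerivAt (F u) (deriv (F u) x) x :=
  (hasDeriv u hx).differentiableAt.hasDerivAt

theorem dF_cons {a : Lt} {u : List Lt} (hg : Good (a :: u)) {x : ℝ} (hx0 : 0 < x) (hx1 : x < 1) :
    deriv (F (a :: u)) x = ker a x * F u x := by
  rw [(hasDeriv _ (by rw [abs_of_pos hx0]; exact hx1)).deriv, deriv_eq hg hx0 hx1]

theorem F_zero' {u : List Lt} (h : u ≠ []) : F u 0 = 0 := by
  cases u with
  | nil => exact absurd rfl h
  | cons a u => exact F_zero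

/-- a variant of `nonneg_of_deriv` -/
theorem nonneg_of_deriv' {G G' : ℝ → ℝ} (h : ∀ x, 0 < x → x < 1 → HasDerivAt G (G' x) x)
    (h0 : Tendsto G (𝓝[>] 0) (𝓝 0)) (hp : ∀ x, 0 < x → x < 1 → 0 ≤ G' x) :
    ∀ x, 0 < x → x < 1 → 0 ≤ G x := by
  intro x hx0 hx1
  have hm : MonotoneOn G (Set.Ioo 0 1) := by
    refine monotoneOn_of_deriv_nonneg (convex_Ioo 0 1) ?_ ?_ ?_
    · intro y hy
      exact (h y hy.1 hy.2).continuousAt.continuousWithinAt
    · intro y hy
      rw [interior_Ioo] at hy
      exact (h y hy.1 hy.2).differentiableAt.differentiableWithinAt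
    · intro y hy
      rw [interior_Ioo] at hy
      rw [(h y hy.1 hy.2).deriv]
      exact hp y hy.1 hy.2
  refine le_of_tendsto h0 ?_
  have h1 : Set.Ioo (0 : ℝ) x ∈ 𝓝[>] (0 : ℝ) := Ioo_mem_nhdsGT hx0
  filter_upwards [h1] with y hy
  exact hm ⟨hy.1, hy.2.trans hx1⟩ ⟨hx0, hx1⟩ hy.2.le

/-- the growth of `F v` -/
theorem growth (v : List Lt) : Good v → ∀ x, 0 < x → x < 1 →
    x * (1 - x) * deriv (F v) x ≤ dep v * F v x := by
  induction v with
  | nil =>
    intro _ x _ _
    have : F [] = fun _ => (1 : ℝ) := funext fun y => F_nil y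
    rw [this]
    simp [dep]
  | cons a v ih =>
    intro hg x hx0 hx1
    have ih' := ih hg.2
    rw [dF_cons hg hx0 hx1]
    cases a with
    | z =>
      have hv : v ≠ [] := fun h => hg.1 h rfl
      have key := nonneg_of_deriv (G := fun y => dep v * F (Lt.z :: v) y - (1 - y) * F v y)
        (G' := fun y => dep v * deriv (F (Lt.z :: v)) y - ((0 - 1) * F v y + (1 - y) * deriv (F v) y))
        (fun y hy => ((dF_hd _ hy).const_mul _).sub
          (((hasDerivAt_const y (1 : ℝ)).sub (hasDerivAt_id y)).mul (dF_hd _ hy)))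
        (by simp only [F_zero' hv, F_zero]; ring)
        (fun y hy0 hy1 => by
          rw [dF_cons hg hy0 hy1]
          have h1 := ih' y hy0 hy1
          have h2 := F_nonneg hg.2 hy0.le hy1
          have h3 : (1 - y) * deriv (F v) y ≤ dep v * F v y / y := by
            rw [le_div_iff₀ hy0]
            linarith
          have h4 : dep v * (ker Lt.z y * F v y) = dep v * F v y / y := by
            unfold AM.ker; ring
          rw [h4]
          linarith) x hx0.le hx1
      have h5 : x * (1 - x) * (ker Lt.z x * F v x) = (1 - x) * F v x := by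
        unfold AM.ker
        field_simp
      rw [h5]
      show _ ≤ (dep v : ℝ) * F (Lt.z :: v) x
      linarith
    | p =>
      have key := nonneg_of_deriv (G := fun y => (dep v + 1 : ℝ) * F (Lt.p :: v) y - y * F v y)
        (G' := fun y => (dep v + 1 : ℝ) * deriv (F (Lt.p :: v)) y - (1 * F v y + y * deriv (F v) y))
        (fun y hy => ((dF_hd _ hy).const_mul _).sub ((hasDerivAt_id y).mul (dF_hd _ hy)))
        (by simp only [F_zero]; ring)
        (fun y hy0 hy1 => by
          rw [dF_cons hg hy0 hy1]
          have h1 := ih' y hy0 hy1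
          have h2 := F_nonneg hg.2 hy0.le hy1
          have h0 : 0 < 1 - y := by linarith
          have h3 : y * deriv (F v) y ≤ dep v * F v y / (1 - y) := by
            rw [le_div_iff₀ h0]
            linarith
          have h4 : (dep v + 1 : ℝ) * (ker Lt.p y * F v y) = dep v * F v y / (1 - y) + F v y / (1 - y) := by
            unfold AM.ker; ring
          have h5 : F v y ≤ F v y / (1 - y) := by
            rw [le_div_iff₀ h0]
            nlinarith
          rw [h4]
          linarith) x hx0.le hx1
      have h0 : (1 - x) ≠ 0 := by linarith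
      have h5 : x * (1 - x) * (ker Lt.p x * F v x) = x * F v x := by
        unfold AM.ker
        field_simp
      rw [h5]
      show _ ≤ ((dep v + 1 : ℕ) : ℝ) * F (Lt.p :: v) x
      push_cast
      linarith
    | m =>
      have hq : ∀ y : ℝ, |y| < 1 → HasDerivAt (fun y : ℝ => y * (1 - y) / (1 + y))
          (((1 * (1 - y) + y * (0 - 1)) * (1 + y) - y * (1 - y) * (0 + 1)) / (1 + y) ^ 2) y := by
        intro y hy
        have : 1 + y ≠ 0 := by linarith [(abs_lt.1 hy).1]
        exact ((hasDerivAt_id y).mul ((hasDerivAt_const y (1 : ℝ)).sub (hasDerivAt_id y))).div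
          ((hasDerivAt_const y (1 : ℝ)).add (hasDerivAt_id y)) this
      have key := nonneg_of_deriv (G := fun y => (dep v + 1 : ℝ) * F (Lt.m :: v) y -
          (y * (1 - y) / (1 + y)) * F v y)
        (G' := fun y => (dep v + 1 : ℝ) * deriv (F (Lt.m :: v)) y -
          ((((1 * (1 - y) + y * (0 - 1)) * (1 + y) - y * (1 - y) * (0 + 1)) / (1 + y) ^ 2) * F v y +
            (y * (1 - y) / (1 + y)) * deriv (F v) y))
        (fun y hy => ((dF_hd _ hy).const_mul _).sub ((hq y hy).mul (dF_hd _ hy)))
        (by simp only [F_zero]; ring)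
        (fun y hy0 hy1 => by
          rw [dF_cons hg hy0 hy1]
          have h1 := ih' y hy0 hy1
          have h2 := F_nonneg hg.2 hy0.le hy1
          have h0 : 0 < 1 + y := by linarith
          have h3 : (y * (1 - y) / (1 + y)) * deriv (F v) y ≤ dep v * F v y / (1 + y) := by
            rw [div_mul_eq_mul_div]
            exact div_le_div_of_nonneg_right h1 h0.le
          have h4 : (dep v + 1 : ℝ) * (ker Lt.m y * F v y) = dep v * F v y / (1 + y) + F v y / (1 + y) := by
            unfold AM.ker; ring
          have h5 : (((1 * (1 - y) + y * (0 - 1)) * (1 + y) - y * (1 - y) * (0 + 1)) / (1 + y) ^ 2) * F v y ≤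
              F v y / (1 + y) := by
            rw [div_mul_eq_mul_div, div_le_div_iff₀ (by positivity) h0]
            have : 0 ≤ F v y * (1 + y) * (3 * y + y ^ 2) := by positivity
            nlinarith
          rw [h4]
          linarith) x hx0.le hx1
      have h5 : x * (1 - x) * (ker Lt.m x * F v x) = (x * (1 - x) / (1 + x)) * F v x := by
        unfold AM.ker
        ring
      rw [h5]
      show _ ≤ ((dep v + 1 : ℕ) : ℝ) * F (Lt.m :: v) x
      push_cast
      linarith

/-- the upper bound for `F (u v)` -/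
theorem upper {v : List Lt} (hv : Good v) (hne : v ≠ []) (u : List Lt) : ∀ x, 0 < x → x < 1 →
    F (u ++ v) x ≤ dep v * (F (u ++ Lt.z :: v) x + F (u ++ Lt.p :: v) x) := by
  induction u with
  | nil =>
    intro x hx0 hx1
    have key := nonneg_of_deriv (G := fun y => dep v * (F (Lt.z :: v) y + F (Lt.p :: v) y) - F v y)
      (G' := fun y => dep v * (deriv (F (Lt.z :: v)) y + deriv (F (Lt.p :: v)) y) - deriv (F v) y)
      (fun y hy => (((dF_hd _ hy).add (dF_hd _ hy)).const_mul _).sub (dF_hd _ hy))
      (by simp only [F_zero, F_zero' hne]; ring)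
      (fun y hy0 hy1 => by
        rw [dF_cons (good_cons hv hne _) hy0 hy1, dF_cons (good_cons hv hne _) hy0 hy1]
        have h1 := growth v hv y hy0 hy1
        have h0 : 0 < 1 - y := by linarith
        have h2 : ker Lt.z y * F v y + ker Lt.p y * F v y = F v y / (y * (1 - y)) := by
          unfold AM.ker
          field_simp
          ring
        rw [h2]
        have h3 : deriv (F v) y ≤ dep v * F v y / (y * (1 - y)) := by
          rw [le_div_iff₀ (by positivity)]
          linarith
        have h4 : dep v * (F v y / (y * (1 - y))) = dep v * F v y / (y * (1 - y)) := by ring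
        rw [h4]
        linarith) x hx0.le hx1
    simp only [List.nil_append]
    linarith
  | cons a u ih =>
    intro x hx0 hx1
    have hg1 : Good (a :: (u ++ v)) := good_app hv hne (a :: u)
    have hg2 : Good (a :: (u ++ Lt.z :: v)) := good_app (good_cons hv hne _) (by simp) (a :: u)
    have hg3 : Good (a :: (u ++ Lt.p :: v)) := good_app (good_cons hv hne _) (by simp) (a :: u)
    have key := nonneg_of_deriv
      (G := fun y => dep v * (F (a :: (u ++ Lt.z :: v)) y + F (a :: (u ++ Lt.p :: v)) y) - F (a :: (u ++ v)) y)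
      (G' := fun y => dep v * (deriv (F (a :: (u ++ Lt.z :: v))) y + deriv (F (a :: (u ++ Lt.p :: v))) y) -
        deriv (F (a :: (u ++ v))) y)
      (fun y hy => (((dF_hd _ hy).add (dF_hd _ hy)).const_mul _).sub (dF_hd _ hy))
      (by simp only [F_zero]; ring)
      (fun y hy0 hy1 => by
        rw [dF_cons hg1 hy0 hy1, dF_cons hg2 hy0 hy1, dF_cons hg3 hy0 hy1]
        have h1 := ih y hy0 hy1
        have h2 := ker_pos a hy0 hy1
        nlinarith) x hx0.le hx1
    simp only [List.cons_append]
    linarith

theorem co_one {v : List Lt} (hne : v ≠ []) (u : List Lt) : co (u ++ Lt.p :: v) 1 = 0 := by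
  have h0 : ∀ w : List Lt, w ≠ [] → co w 0 = 0 := by
    intro w hw
    cases w with
    | nil => exact absurd rfl hw
    | cons a w => exact co_zero
  induction u with
  | nil =>
    show co (Lt.p :: v) 1 = 0
    rw [co_cons_ne (by simp)]
    simp [h0 v hne]
  | cons a u ih =>
    show co (a :: (u ++ Lt.p :: v)) 1 = 0
    by_cases ha : a = Lt.z
    · subst ha
      show co (u ++ Lt.p :: v) 1 / _ = 0
      rw [ih]
      simp
    · rw [co_cons_ne ha]
      simp [h0 (u ++ Lt.p :: v) (by simp)]

theorem div_tendsto {v : List Lt} (hne : v ≠ []) (u : List Lt) :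
    Tendsto (fun x => (1 - x) / x * F (u ++ Lt.p :: v) x) (𝓝[>] 0) (𝓝 0) := by
  have h1 := hasDeriv (u ++ Lt.p :: v) (x := 0) (by simp)
  have h2 : ∑' n, co (u ++ Lt.p :: v) n * (n * (0 : ℝ) ^ (n - 1)) = 0 := by
    rw [tsum_eq_single 1]
    · rw [co_one hne]; simp
    · intro n hn
      rcases Nat.eq_zero_or_pos n with h | h
      · subst h; simp
      · rw [zero_pow (by omega)]; simp
  rw [h2, hasDerivAt_iff_tendsto_slope] at h1
  have h3 : Tendsto (fun x : ℝ => (1 - x) * slope (F (u ++ Lt.p :: v)) 0 x) (𝓝[>] 0) (𝓝 ((1 - 0) * 0)) := by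
    refine Tendsto.mul ?_ (h1.mono_left (nhdsWithin_mono _ (fun y hy => ne_of_gt hy)))
    exact (tendsto_const_nhds.sub tendsto_id).mono_left nhdsWithin_le_nhds
  rw [mul_zero] at h3
  refine h3.congr' ?_
  filter_upwards [self_mem_nhdsWithin] with x hx
  rw [slope_def_field, F_zero' (by simp), sub_zero, sub_zero]
  ring

theorem F_tendsto_zero {u : List Lt} (h : u ≠ []) : Tendsto (F u) (𝓝[>] 0) (𝓝 0) := by
  have h1 := (hasDeriv u (x := 0) (by simp)).continuousAt.tendsto
  rw [F_zero' h] at h1
  exact h1.mono_left nhdsWithin_le_nhds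

/-- the lower bound for `F (u v)` -/
theorem lower {v : List Lt} (hv : Good v) (hne : v ≠ []) (u : List Lt) : ∀ x, 0 < x → x < 1 →
    (1 - x) * deriv (F (u ++ Lt.p :: v)) x + cz u * F (u ++ Lt.p :: v) x ≤ F (u ++ v) x := by
  induction u with
  | nil =>
    intro x hx0 hx1
    show (1 - x) * deriv (F (Lt.p :: v)) x + ((0 : ℕ) : ℝ) * F (Lt.p :: v) x ≤ F v x
    rw [dF_cons (good_cons hv hne _) hx0 hx1]
    have h0 : (1 - x) ≠ 0 := by linarith
    have : (1 - x) * (ker Lt.p x * F v x) = F v x := by
      unfold AM.ker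
      field_simp
    rw [this]
    simp
  | cons a u ih =>
    intro x hx0 hx1
    have hg1 : Good (a :: (u ++ v)) := good_app hv hne (a :: u)
    have hg3 : Good (a :: (u ++ Lt.p :: v)) := good_app (good_cons hv hne _) (by simp) (a :: u)
    obtain ⟨W, hW⟩ : ∃ W, W = u ++ Lt.p :: v := ⟨_, rfl⟩
    have hWne : W ≠ [] := by rw [hW]; simp
    have hWg : Good W := by rw [hW]; exact good_app (good_cons hv hne _) (by simp) u
    have hdiv := div_tendsto hne u
    simp only [List.cons_append]
    rw [← hW] at hg3 hdiv ih ⊢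
    rw [dF_cons hg3 hx0 hx1]
    cases a with
    | z =>
      have key := nonneg_of_deriv'
        (G := fun y => F (Lt.z :: (u ++ v)) y - (1 - y) / y * F W y - (cz u + 1 : ℝ) * F (Lt.z :: W) y)
        (G' := fun y => deriv (F (Lt.z :: (u ++ v))) y -
          (((0 - 1) * y - (1 - y) * 1) / y ^ 2 * F W y + (1 - y) / y * deriv (F W) y) -
            (cz u + 1 : ℝ) * deriv (F (Lt.z :: W)) y)
        (fun y hy0 hy1 => by
          have hy : |y| < 1 := by rw [abs_of_pos hy0]; exact hy1
          exact ((dF_hd _ hy).sub ((((hasDerivAt_const y (1 : ℝ)).sub (hasDerivAt_id y)).div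
            (hasDerivAt_id y) hy0.ne').mul (dF_hd _ hy))).sub ((dF_hd _ hy).const_mul _))
        (by
          have h1 := ((F_tendsto_zero (u := Lt.z :: (u ++ v)) (by simp)).sub hdiv).sub
            ((F_tendsto_zero (u := Lt.z :: W) (by simp)).const_mul (cz u + 1 : ℝ))
          simpa using h1)
        (fun y hy0 hy1 => by
          rw [dF_cons hg1 hy0 hy1, dF_cons hg3 hy0 hy1]
          have h1 := ih y hy0 hy1
          have h2 := F_nonneg hWg hy0.le hy1
          have h3 : ker Lt.z y * F (u ++ v) y -
              (((0 - 1) * y - (1 - y) * 1) / y ^ 2 * F W y + (1 - y) / y * deriv (F W) y) -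
              (cz u + 1 : ℝ) * (ker Lt.z y * F W y) =
              (1 / y) * (F (u ++ v) y - ((1 - y) * deriv (F W) y + cz u * F W y)) +
                F W y * ((1 - y) / y ^ 2) := by
            unfold AM.ker
            field_simp
            ring
          rw [h3]
          have h4 : 0 ≤ (1 / y) * (F (u ++ v) y - ((1 - y) * deriv (F W) y + cz u * F W y)) :=
            mul_nonneg (by positivity) (by linarith)
          have h5 : 0 ≤ F W y * ((1 - y) / y ^ 2) :=
            mul_nonneg h2 (div_nonneg (by linarith) (by positivity))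
          linarith) x hx0 hx1
      have h6 : (1 - x) * (ker Lt.z x * F W x) = (1 - x) / x * F W x := by unfold AM.ker; ring
      rw [h6]
      show _ + ((cz u + 1 : ℕ) : ℝ) * F (Lt.z :: W) x ≤ _
      push_cast
      linarith
    | p =>
      have key := nonneg_of_deriv
        (G := fun y => F (Lt.p :: (u ++ v)) y - F W y - (cz u : ℝ) * F (Lt.p :: W) y)
        (G' := fun y => deriv (F (Lt.p :: (u ++ v))) y - deriv (F W) y - (cz u : ℝ) * deriv (F (Lt.p :: W)) y)
        (fun y hy => ((dF_hd _ hy).sub (dF_hd _ hy)).sub ((dF_hd _ hy).const_mul _))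
        (by simp only [F_zero, F_zero' hWne]; ring)
        (fun y hy0 hy1 => by
          rw [dF_cons hg1 hy0 hy1, dF_cons hg3 hy0 hy1]
          have h1 := ih y hy0 hy1
          have h0 : 0 < 1 - y := by linarith
          have h3 : ker Lt.p y * F (u ++ v) y - deriv (F W) y - (cz u : ℝ) * (ker Lt.p y * F W y) =
              (1 / (1 - y)) * (F (u ++ v) y - ((1 - y) * deriv (F W) y + cz u * F W y)) := by
            unfold AM.ker
            field_simp
            ring
          rw [h3]
          exact mul_nonneg (by positivity) (by linarith)) x hx0.le hx1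
      have h0 : (1 - x) ≠ 0 := by linarith
      have h6 : (1 - x) * (ker Lt.p x * F W x) = F W x := by unfold AM.ker; field_simp
      rw [h6]
      show _ + (cz u : ℝ) * F (Lt.p :: W) x ≤ _
      linarith
    | m =>
      have hq : ∀ y : ℝ, |y| < 1 → HasDerivAt (fun y : ℝ => (1 - y) / (1 + y))
          (((0 - 1) * (1 + y) - (1 - y) * (0 + 1)) / (1 + y) ^ 2) y := by
        intro y hy
        have : 1 + y ≠ 0 := by linarith [(abs_lt.1 hy).1]
        exact ((hasDerivAt_const y (1 : ℝ)).sub (hasDerivAt_id y)).div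
          ((hasDerivAt_const y (1 : ℝ)).add (hasDerivAt_id y)) this
      have key := nonneg_of_deriv
        (G := fun y => F (Lt.m :: (u ++ v)) y - (1 - y) / (1 + y) * F W y - (cz u : ℝ) * F (Lt.m :: W) y)
        (G' := fun y => deriv (F (Lt.m :: (u ++ v))) y -
          (((0 - 1) * (1 + y) - (1 - y) * (0 + 1)) / (1 + y) ^ 2 * F W y +
            (1 - y) / (1 + y) * deriv (F W) y) - (cz u : ℝ) * deriv (F (Lt.m :: W)) y)
        (fun y hy => ((dF_hd _ hy).sub ((hq y hy).mul (dF_hd _ hy))).sub ((dF_hd _ hy).const_mul _))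
        (by simp only [F_zero, F_zero' hWne]; ring)
        (fun y hy0 hy1 => by
          rw [dF_cons hg1 hy0 hy1, dF_cons hg3 hy0 hy1]
          have h1 := ih y hy0 hy1
          have h2 := F_nonneg hWg hy0.le hy1
          have h0 : 0 < 1 + y := by linarith
          have h3 : ker Lt.m y * F (u ++ v) y -
              (((0 - 1) * (1 + y) - (1 - y) * (0 + 1)) / (1 + y) ^ 2 * F W y +
                (1 - y) / (1 + y) * deriv (F W) y) - (cz u : ℝ) * (ker Lt.m y * F W y) =
              (1 / (1 + y)) * (F (u ++ v) y - ((1 - y) * deriv (F W) y + cz u * F W y)) +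
                2 / (1 + y) ^ 2 * F W y := by
            unfold AM.ker
            field_simp
            ring
          rw [h3]
          have h4 : 0 ≤ (1 / (1 + y)) * (F (u ++ v) y - ((1 - y) * deriv (F W) y + cz u * F W y)) :=
            mul_nonneg (by positivity) (by linarith)
          have h5 : 0 ≤ 2 / (1 + y) ^ 2 * F W y := by positivity
          linarith) x hx0.le hx1
      have h6 : (1 - x) * (ker Lt.m x * F W x) = (1 - x) / (1 + x) * F W x := by unfold AM.ker; ring
      rw [h6]
      show _ + (cz u : ℝ) * F (Lt.m :: W) x ≤ _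
      linarith

/-- the comparison of `u p v` with `u z v`, on `(0, 1)` -/
theorem step {v : List Lt} (hv : Good v) (hne : v ≠ []) (u : List Lt) : ∀ x, 0 < x → x < 1 →
    cz u * F (u ++ Lt.p :: v) x ≤ dep v * (F (u ++ Lt.z :: v) x + F (u ++ Lt.p :: v) x) := by
  intro x hx0 hx1
  refine le_trans ?_ (upper hv hne u x hx0 hx1)
  refine le_trans ?_ (lower hv hne u x hx0 hx1)
  have hg : Good (u ++ Lt.p :: v) := good_app (good_cons hv hne _) (by simp) u
  have h1 : 0 ≤ deriv (F (u ++ Lt.p :: v)) x := by
    cases h : u ++ Lt.p :: v with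
    | nil => simp at h
    | cons a w =>
      rw [h] at hg
      rw [dF_cons hg hx0 hx1]
      exact mul_nonneg (ker_pos a hx0 hx1).le (F_nonneg hg.2 hx0.le hx1)
  have h2 : 0 ≤ (1 - x) * deriv (F (u ++ Lt.p :: v)) x := mul_nonneg (by linarith) h1
  linarith

/-- the comparison of the values at `1` -/
theorem V_step {v : List Lt} (hv : Good v) (hne : v ≠ []) {a : Lt} (ha : a ≠ Lt.p) (u : List Lt) :
    cz (a :: u) * V (a :: u ++ Lt.p :: v) ≤ dep v * (V (a :: u ++ Lt.z :: v) + V (a :: u ++ Lt.p :: v)) := by
  have h1 : Tendsto (F (a :: u ++ Lt.p :: v)) (𝓝[<] 1) (𝓝 (V (a :: u ++ Lt.p :: v))) := F_tendsto ha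
  have h2 : Tendsto (F (a :: u ++ Lt.z :: v)) (𝓝[<] 1) (𝓝 (V (a :: u ++ Lt.z :: v))) := F_tendsto ha
  refine le_of_tendsto_of_tendsto (h1.const_mul _) ((h2.add h1).const_mul _) ?_
  filter_upwards [ev_near] with x hx
  exact step hv hne (a :: u) x (by linarith [hx.1]) hx.2

end Run7.h867.MZ
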