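import Mathlib
import Pool.Agent.Run7.h867.MZ.Ineq
import Pool.Agent.Run7.h867.AM.Gens

/-!
# Anti-concentration of the logarithms of multiple zeta values (helper867)
-/

set_option autoImplicit false

namespace Run7.h867.MZ

open Finset Filter Topology Run7.h867.AM

/-- `true` is the letter `p`, `false` the letter `z` -/
def bl (b : Bool) : Lt := if b then Lt.p else Lt.z

/-- one may change `z` into `p` -/
def Rp (a b : Lt) : Prop := a = b ∨ (a = Lt.z ∧ b = Lt.p)

theorem dep_le (v : List Lt) : dep v ≤ v.length := by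
  induction v with
  | nil => simp [dep]
  | cons a v ih => cases a <;> (simp only [dep, List.length_cons]; omega)

theorem dep_pos {v : List Lt} (hv : Good v) (hne : v ≠ []) : 1 ≤ dep v := by
  induction v with
  | nil => exact absurd rfl hne
  | cons a v ih =>
    cases a with
    | z =>
      have : v ≠ [] := fun h => hv.1 h rfl
      exact ih hv.2 this
    | p => simp [dep]
    | m => simp [dep]

theorem cz_append (u v : List Lt) : cz (u ++ v) = cz u + cz v := by
  induction u with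
  | nil => simp [cz]
  | cons a u ih => cases a <;> simp only [cz, List.cons_append, ih] <;> omega

/-- changing letters `z` into `p` in a block `B` of at most `m` letters before the last letter at least halves the
value, if there are `3 m` letters `z` before the block -/
theorem block {m : ℕ} {B B' : List Lt} (h : List.Forall₂ Rp B B') : B.length ≤ m → ∀ (A : List Lt),
    3 * m ≤ cz (Lt.z :: A) →
      V (Lt.z :: A ++ (B' ++ [Lt.p])) ≤ V (Lt.z :: A ++ (B ++ [Lt.p])) ∧
      (B ≠ B' → 2 * V (Lt.z :: A ++ (B' ++ [Lt.p])) ≤ V (Lt.z :: A ++ (B ++ [Lt.p]))) := by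
  induction h with
  | nil => intro _ A _; exact ⟨le_rfl, fun h => absurd rfl h⟩
  | @cons a b B B' hab hBB ih =>
    intro hl A hA
    rw [List.length_cons] at hl
    have hl' : B.length ≤ m := by omega
    have happ : ∀ (c : Lt) (D : List Lt), Lt.z :: A ++ (c :: D ++ [Lt.p]) = Lt.z :: (A ++ [c]) ++ (D ++ [Lt.p]) := by
      intro c D; simp
    have hcz : ∀ c : Lt, 3 * m ≤ cz (Lt.z :: (A ++ [c])) := by
      intro c
      have : Lt.z :: (A ++ [c]) = (Lt.z :: A) ++ [c] := by simp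
      rw [this, cz_append]
      omega
    rcases hab with hab | ⟨ha, hb⟩
    · subst hab
      have h1 := ih hl' (A ++ [a]) (hcz a)
      rw [happ, happ]
      refine ⟨h1.1, fun hne => h1.2 fun h => hne (by rw [h])⟩
    · subst ha hb
      have h1 := (ih hl' (A ++ [Lt.z]) (hcz Lt.z)).1
      have hlen := hBB.length_eq
      -- the step
      have hv : Good (B' ++ [Lt.p]) := good_snoc B' (by simp)
      have hvne : B' ++ [Lt.p] ≠ [] := by simp
      have h2 := V_step hv hvne (a := Lt.z) (by simp) A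
      have h3 : dep (B' ++ [Lt.p]) ≤ m := by
        refine (dep_le _).trans ?_
        rw [List.length_append, List.length_singleton, ← hlen]
        exact hl
      have h4 := dep_pos hv hvne
      have hP : 0 < V (Lt.z :: A ++ Lt.p :: (B' ++ [Lt.p])) := V_pos (by simp) (good_app (good_cons hv hvne _) (by simp) (Lt.z :: A))
      have hZ : 0 < V (Lt.z :: A ++ Lt.z :: (B' ++ [Lt.p])) := V_pos (by simp) (good_app (good_cons hv hvne _) (by simp) (Lt.z :: A))
      have h5 : 2 * V (Lt.z :: A ++ Lt.p :: (B' ++ [Lt.p])) ≤ V (Lt.z :: A ++ Lt.z :: (B' ++ [Lt.p])) := by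
        obtain ⟨d, hd⟩ : ∃ d : ℝ, d = (dep (B' ++ [Lt.p]) : ℝ) := ⟨_, rfl⟩
        obtain ⟨x, hx⟩ : ∃ x : ℝ, x = V (Lt.z :: A ++ Lt.p :: (B' ++ [Lt.p])) := ⟨_, rfl⟩
        obtain ⟨y, hy⟩ : ∃ y : ℝ, y = V (Lt.z :: A ++ Lt.z :: (B' ++ [Lt.p])) := ⟨_, rfl⟩
        rw [← hd, ← hx, ← hy] at h2
        rw [← hx] at hP
        rw [← hx, ← hy]
        have h6 : (3 : ℝ) * d ≤ cz (Lt.z :: A) := by
          rw [hd]
          exact_mod_cast (Nat.mul_le_mul_left 3 h3).trans hA
        have h7 : (0 : ℝ) < d := by rw [hd]; exact_mod_cast h4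
        have h8 : 3 * d * x ≤ d * (y + x) := (mul_le_mul_of_nonneg_right h6 hP.le).trans h2
        have h9 : d * (2 * x) ≤ d * y := by linarith
        exact le_of_mul_le_mul_left h9 h7
      have e1 : Lt.z :: A ++ (Lt.p :: B' ++ [Lt.p]) = Lt.z :: A ++ Lt.p :: (B' ++ [Lt.p]) := by simp
      have e2 : Lt.z :: A ++ (Lt.z :: B ++ [Lt.p]) = Lt.z :: (A ++ [Lt.z]) ++ (B ++ [Lt.p]) := by simp
      have e3 : Lt.z :: A ++ Lt.z :: (B' ++ [Lt.p]) = Lt.z :: (A ++ [Lt.z]) ++ (B' ++ [Lt.p]) := by simp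
      rw [e1, e2]
      rw [e3] at h5
      have h6 : 2 * V (Lt.z :: A ++ Lt.p :: (B' ++ [Lt.p])) ≤ V (Lt.z :: (A ++ [Lt.z]) ++ (B ++ [Lt.p])) := h5.trans h1
      exact ⟨by linarith, fun _ => h6⟩

theorem rp_ofFn {m : ℕ} {b b' : Fin m → Bool} (h : ∀ i, b i = true → b' i = true) :
    List.Forall₂ Rp (List.ofFn fun i => bl (b i)) (List.ofFn fun i => bl (b' i)) := by
  have key : ∀ j, Rp (bl (b j)) (bl (b' j)) := by
    intro j
    unfold Rp bl
    by_cases h3 : b j = true
    · left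
      rw [h3, h j h3]
    · by_cases h4 : b' j = true
      · right
        simp [h3, h4]
      · left
        simp [h3, h4]
  rw [List.forall₂_iff_get]
  refine ⟨by simp, fun i h1 h2 => ?_⟩
  simp only [List.get_ofFn]
  exact key _

/-- the logarithm of the value of the word `z A B p` -/
noncomputable def LV (A B : List Lt) : ℝ := Real.logb 2 (V (Lt.z :: A ++ (B ++ [Lt.p])))

theorem V_good (A B : List Lt) : 0 < V (Lt.z :: A ++ (B ++ [Lt.p])) :=
  V_pos (by simp) (good_app (good_snoc B (by simp)) (by simp) (Lt.z :: A))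

/-- for a fixed beginning with many letters `z` -/
theorem sperner_block {m : ℕ} (A : List Lt) (hA : 3 * m ≤ cz (Lt.z :: A)) (x : ℝ) :
    #(univ.filter fun b : Fin m → Bool => x ≤ LV A (List.ofFn fun i => bl (b i)) ∧
      LV A (List.ofFn fun i => bl (b i)) < x + 1) ≤ m.choose (m / 2) := by
  classical
  obtain ⟨S, hS⟩ : ∃ S : Finset (Fin m → Bool), S = univ.filter fun b : Fin m → Bool =>
      x ≤ LV A (List.ofFn fun i => bl (b i)) ∧ LV A (List.ofFn fun i => bl (b i)) < x + 1 := ⟨_, rfl⟩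
  rw [← hS]
  obtain ⟨Q, hQ⟩ : ∃ Q : (Fin m → Bool) → Finset (Fin m), Q = fun b => univ.filter fun i => b i = true := ⟨_, rfl⟩
  have hQm : ∀ b i, i ∈ Q b ↔ b i = true := by intro b i; rw [hQ]; simp
  have hQinj : Function.Injective Q := by
    intro b b' h
    funext i
    have := hQm b i
    rw [h, hQm b' i] at this
    cases h1 : b i <;> cases h2 : b' i <;> simp_all
  have hSm : ∀ b ∈ S, x ≤ LV A (List.ofFn fun i => bl (b i)) ∧ LV A (List.ofFn fun i => bl (b i)) < x + 1 := by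
    intro b hb
    rw [hS, mem_filter] at hb
    exact hb.2
  have hcmp : ∀ b b' : Fin m → Bool, Q b ⊆ Q b' → b ≠ b' →
      LV A (List.ofFn fun i => bl (b' i)) + 1 ≤ LV A (List.ofFn fun i => bl (b i)) := by
    intro b b' hsub hne
    have h1 := block (m := m) (rp_ofFn (b := b) (b' := b') fun i hi => (hQm b' i).1 (hsub ((hQm b i).2 hi)))
      (by simp) A hA
    have h2 : (List.ofFn fun i => bl (b i)) ≠ List.ofFn fun i => bl (b' i) := by
      intro h
      apply hne
      have h3 := List.ofFn_injective h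
      funext i
      have h4 := congrFun h3 i
      simp only [bl] at h4
      cases h5 : b i <;> cases h6 : b' i <;> simp_all
    have h3 := h1.2 h2
    have h4 := V_good A (List.ofFn fun i => bl (b' i))
    have h5 := Real.logb_le_logb_of_le (b := 2) (by norm_num) (by positivity) h3
    rw [Real.logb_mul (by norm_num) h4.ne', Real.logb_self_eq_one (by norm_num)] at h5
    unfold LV
    linarith
  rw [← card_image_of_injective S hQinj]
  have hanti : IsAntichain (· ⊆ ·) (SetLike.coe (S.image Q)) := by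
    intro X hX Y hY hne hsub
    rw [SetLike.mem_coe, mem_image] at hX hY
    obtain ⟨b, hb, rfl⟩ := hX
    obtain ⟨b', hb', rfl⟩ := hY
    have h1 := hcmp b b' hsub (fun h => hne (by rw [h]))
    have h2 := hSm b hb
    have h3 := hSm b' hb'
    linarith [h2.2, h3.1]
  have := hanti.sperner
  rw [Fintype.card_fin] at this
  exact this

/-- the beginnings with few letters `z` -/
theorem few (k m : ℕ) : (#(univ.filter fun a : Fin k → Bool => cz (Lt.z :: List.ofFn fun i => bl (a i)) < 3 * m) : ℝ) ≤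
    8 ^ m / 4 * (3 / 2) ^ k := by
  classical
  have hcz : ∀ (k : ℕ) (a : Fin k → Bool), (1 / 2 : ℝ) ^ cz (List.ofFn fun i => bl (a i)) =
      ∏ i, (if a i = true then (1 : ℝ) else 1 / 2) := by
    intro k
    induction k with
    | zero => intro a; simp [cz]
    | succ k ih =>
      intro a
      rw [List.ofFn_succ, Fin.prod_univ_succ]
      have h1 := ih fun i => a i.succ
      cases h : a 0 with
      | true =>
        have : bl true = Lt.p := rfl
        rw [this]
        show (1 / 2 : ℝ) ^ cz (List.ofFn fun i => bl (a i.succ)) = _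
        rw [h1]
        simp
      | false =>
        have : bl false = Lt.z := rfl
        rw [this]
        show (1 / 2 : ℝ) ^ (cz (List.ofFn fun i => bl (a i.succ)) + 1) = _
        rw [pow_succ, h1]
        simp
        ring
  have hsum : ∑ a : Fin k → Bool, (1 / 2 : ℝ) ^ cz (List.ofFn fun i => bl (a i)) = (3 / 2) ^ k := by
    have h1 := Finset.prod_univ_sum (fun _ : Fin k => (univ : Finset Bool)) (fun _ b => if b = true then (1 : ℝ) else 1 / 2)
    rw [Fintype.piFinset_univ] at h1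
    rw [sum_congr rfl fun a _ => hcz k a, ← h1]
    simp
    norm_num
  calc (#(univ.filter fun a : Fin k → Bool => cz (Lt.z :: List.ofFn fun i => bl (a i)) < 3 * m) : ℝ)
      = ∑ a ∈ univ.filter (fun a : Fin k → Bool => cz (Lt.z :: List.ofFn fun i => bl (a i)) < 3 * m), (1 : ℝ) := by
        simp
    _ ≤ ∑ a ∈ univ.filter (fun a : Fin k → Bool => cz (Lt.z :: List.ofFn fun i => bl (a i)) < 3 * m),
          8 ^ m / 4 * (1 / 2 : ℝ) ^ cz (List.ofFn fun i => bl (a i)) := by
        refine sum_le_sum fun a ha => ?_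
        rw [mem_filter] at ha
        have h1 : cz (List.ofFn fun i => bl (a i)) + 1 < 3 * m := ha.2
        obtain ⟨c, hc⟩ : ∃ c, 3 * m = cz (List.ofFn fun i => bl (a i)) + 2 + c := ⟨3 * m - (cz (List.ofFn fun i => bl (a i)) + 2), by omega⟩
        have h2 : (8 : ℝ) ^ m = 2 ^ (cz (List.ofFn fun i => bl (a i)) + 2 + c) := by
          rw [← hc, pow_mul]; norm_num
        rw [h2, pow_add, pow_add]
        have h3 : (2 : ℝ) ^ cz (List.ofFn fun i => bl (a i)) * (1 / 2) ^ cz (List.ofFn fun i => bl (a i)) = 1 := by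
          rw [← mul_pow]; norm_num
        calc (1 : ℝ) ≤ 2 ^ c := one_le_pow₀ (by norm_num)
          _ = 2 ^ c * (2 ^ cz (List.ofFn fun i => bl (a i)) * (1 / 2) ^ cz (List.ofFn fun i => bl (a i))) := by
              rw [h3, mul_one]
          _ = _ := by ring
    _ ≤ ∑ a : Fin k → Bool, 8 ^ m / 4 * (1 / 2 : ℝ) ^ cz (List.ofFn fun i => bl (a i)) := by
        refine sum_le_sum_of_subset_of_nonneg (filter_subset _ _) fun _ _ _ => by positivity
    _ = 8 ^ m / 4 * (3 / 2) ^ k := by rw [← mul_sum, hsum]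

/-- the two parts together -/
theorem two_parts (k m : ℕ) (x : ℝ) :
    (#(univ.filter fun g : (Fin k → Bool) × (Fin m → Bool) =>
      x ≤ LV (List.ofFn fun i => bl (g.1 i)) (List.ofFn fun i => bl (g.2 i)) ∧
      LV (List.ofFn fun i => bl (g.1 i)) (List.ofFn fun i => bl (g.2 i)) < x + 1) : ℝ) ≤
      2 ^ (k + m) * (1 / √((m : ℝ) + 1) + 8 ^ m / 4 * (3 / 4) ^ k) := by
  classical
  obtain ⟨S, hS⟩ : ∃ S : Finset ((Fin k → Bool) × (Fin m → Bool)), S = univ.filter fun g : (Fin k → Bool) × (Fin m → Bool) =>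
      x ≤ LV (List.ofFn fun i => bl (g.1 i)) (List.ofFn fun i => bl (g.2 i)) ∧
      LV (List.ofFn fun i => bl (g.1 i)) (List.ofFn fun i => bl (g.2 i)) < x + 1 := ⟨_, rfl⟩
  rw [← hS]
  obtain ⟨T, hT⟩ : ∃ T : (Fin k → Bool) → Finset (Fin m → Bool), T = fun a => univ.filter fun b : Fin m → Bool =>
      x ≤ LV (List.ofFn fun i => bl (a i)) (List.ofFn fun i => bl (b i)) ∧
      LV (List.ofFn fun i => bl (a i)) (List.ofFn fun i => bl (b i)) < x + 1 := ⟨_, rfl⟩
  have h1 : #S = ∑ a : Fin k → Bool, #(T a) := by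
    have e : S = (univ : Finset (Fin k → Bool)).biUnion fun a => (T a).image fun b => (a, b) := by
      ext g
      rw [hS, mem_filter, mem_biUnion]
      constructor
      · intro h
        refine ⟨g.1, mem_univ _, ?_⟩
        rw [mem_image]
        refine ⟨g.2, ?_, rfl⟩
        rw [hT, mem_filter]
        exact ⟨mem_univ _, h.2⟩
      · rintro ⟨a, -, ha⟩
        rw [mem_image] at ha
        obtain ⟨b, hb, rfl⟩ := ha
        rw [hT, mem_filter] at hb
        exact ⟨mem_univ _, hb.2⟩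
    rw [e, card_biUnion]
    · refine sum_congr rfl fun a _ => ?_
      exact card_image_of_injective _ fun b b' h => (Prod.ext_iff.1 h).2
    · intro a _ a' _ hne
      rw [Function.onFun, disjoint_left]
      intro g hg hg'
      rw [mem_image] at hg hg'
      obtain ⟨b, -, rfl⟩ := hg
      obtain ⟨b', -, h⟩ := hg'
      exact hne (Prod.ext_iff.1 h).1.symm
  rw [h1]
  push_cast
  obtain ⟨C, hC⟩ : ∃ C : ℝ, C = 2 ^ m / √((m : ℝ) + 1) := ⟨_, rfl⟩
  have hC0 : 0 ≤ C := by rw [hC]; positivity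
  have h2 : ∀ a : Fin k → Bool, (#(T a) : ℝ) ≤ C + (if cz (Lt.z :: List.ofFn fun i => bl (a i)) < 3 * m then 2 ^ m else 0) := by
    intro a
    by_cases h : cz (Lt.z :: List.ofFn fun i => bl (a i)) < 3 * m
    · rw [if_pos h]
      have h3 : #(T a) ≤ 2 ^ m := by
        refine (card_le_univ _).trans ?_
        rw [Fintype.card_fun, Fintype.card_bool, Fintype.card_fin]
      have h4 : (#(T a) : ℝ) ≤ 2 ^ m := by exact_mod_cast h3
      linarith
    · rw [if_neg h, add_zero, hC]
      refine le_trans ?_ (choose_half_le m)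
      rw [Nat.cast_le, hT]
      exact sperner_block _ (not_lt.1 h) x
  have h3 := few k m
  calc ∑ a : Fin k → Bool, (#(T a) : ℝ)
      ≤ ∑ a : Fin k → Bool, (C + (if cz (Lt.z :: List.ofFn fun i => bl (a i)) < 3 * m then (2 : ℝ) ^ m else 0)) :=
        sum_le_sum fun a _ => h2 a
    _ = 2 ^ k * C + 2 ^ m * #(univ.filter fun a : Fin k → Bool => cz (Lt.z :: List.ofFn fun i => bl (a i)) < 3 * m) := by
        rw [sum_add_distrib, sum_const, card_univ, Fintype.card_fun, Fintype.card_bool, Fintype.card_fin,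
          nsmul_eq_mul, ← sum_filter, sum_const, nsmul_eq_mul]
        push_cast
        ring
    _ ≤ 2 ^ k * C + 2 ^ m * (8 ^ m / 4 * (3 / 2) ^ k) := by gcongr
    _ = _ := by
        rw [hC, pow_add, show (3 / 2 : ℝ) = 2 * (3 / 4) by norm_num, mul_pow]
        ring

theorem numeric (k m : ℕ) (hm : m = (k + m + 2) / 10) :
    1 / √((m : ℝ) + 1) + 8 ^ m / 4 * (3 / 4) ^ k ≤ 5 / √((k + m + 2 : ℕ) : ℝ) := by
  have h1 : k + m + 2 ≤ 10 * (m + 1) := by omega
  have h2 : 9 * m ≤ k + 2 := by omega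
  have hw : (0 : ℝ) < √((k + m + 2 : ℕ) : ℝ) := Real.sqrt_pos.2 (by positivity)
  have hm1 : (0 : ℝ) < √((m : ℝ) + 1) := Real.sqrt_pos.2 (by positivity)
  have hs : √((k + m + 2 : ℕ) : ℝ) ≤ 3.17 * √((m : ℝ) + 1) := by
    have h3 : ((k + m + 2 : ℕ) : ℝ) ≤ 10 * ((m : ℝ) + 1) := by exact_mod_cast h1
    calc √((k + m + 2 : ℕ) : ℝ) ≤ √(3.17 ^ 2 * ((m : ℝ) + 1)) := Real.sqrt_le_sqrt (by
          have : (0 : ℝ) ≤ m := Nat.cast_nonneg m
          nlinarith)
      _ = 3.17 * √((m : ℝ) + 1) := by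
          rw [Real.sqrt_mul (by norm_num), Real.sqrt_sq (by norm_num)]
  -- the exponential term
  have h3 : (3 / 4 : ℝ) ^ k ≤ 16 / 9 * ((3 / 4) ^ 9) ^ m := by
    have h4 : (3 / 4 : ℝ) ^ (k + 2) ≤ (3 / 4) ^ (9 * m) := pow_le_pow_of_le_one (by norm_num) (by norm_num) h2
    rw [pow_mul] at h4
    have h5 : (3 / 4 : ℝ) ^ (k + 2) = 9 / 16 * (3 / 4) ^ k := by rw [pow_add]; norm_num; ring
    rw [h5] at h4
    linarith
  have h4 : (8 : ℝ) ^ m * ((3 / 4) ^ 9) ^ m ≤ (7 / 10) ^ m := by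
    rw [← mul_pow]
    exact pow_le_pow_left₀ (by norm_num) (by norm_num) m
  have h5 : √((m : ℝ) + 1) * (7 / 10) ^ m ≤ 1 := by
    have h6 : ((m : ℝ) + 1) * ((7 / 10) ^ m * (7 / 10) ^ m) ≤ 1 := by
      have h7 : (m : ℝ) + 1 ≤ 2 ^ m := by
        have : m + 1 ≤ 2 ^ m := Nat.lt_two_pow_self
        exact_mod_cast this
      have h8 : ((7 / 10 : ℝ) ^ m * (7 / 10) ^ m) ≤ (1 / 2) ^ m := by
        rw [← mul_pow]
        exact pow_le_pow_left₀ (by norm_num) (by norm_num) m
      calc ((m : ℝ) + 1) * ((7 / 10) ^ m * (7 / 10) ^ m) ≤ 2 ^ m * (1 / 2) ^ m := by gcongr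
        _ = 1 := by rw [← mul_pow]; norm_num
    have h9 : (√((m : ℝ) + 1) * (7 / 10) ^ m) ^ 2 ≤ 1 ^ 2 := by
      rw [mul_pow, Real.sq_sqrt (by positivity), sq]
      linarith
    exact le_of_sq_le_sq h9 (by norm_num)
  have h6 : (8 : ℝ) ^ m / 4 * (3 / 4) ^ k ≤ 4 / 9 * (7 / 10) ^ m := by
    calc (8 : ℝ) ^ m / 4 * (3 / 4) ^ k ≤ 8 ^ m / 4 * (16 / 9 * ((3 / 4) ^ 9) ^ m) := by gcongr
      _ = 4 / 9 * (8 ^ m * ((3 / 4) ^ 9) ^ m) := by ring
      _ ≤ 4 / 9 * (7 / 10) ^ m := by gcongr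
  rw [le_div_iff₀ hw, add_mul]
  have h7 : 1 / √((m : ℝ) + 1) * √((k + m + 2 : ℕ) : ℝ) ≤ 3.17 := by
    rw [one_div, inv_mul_le_iff₀ hm1, mul_comm]
    exact hs
  have h8 : 8 ^ m / 4 * (3 / 4) ^ k * √((k + m + 2 : ℕ) : ℝ) ≤ 4 / 9 * 3.17 := by
    calc 8 ^ m / 4 * (3 / 4) ^ k * √((k + m + 2 : ℕ) : ℝ)
        ≤ (4 / 9 * (7 / 10) ^ m) * (3.17 * √((m : ℝ) + 1)) := by gcongr
      _ = 4 / 9 * 3.17 * (√((m : ℝ) + 1) * (7 / 10) ^ m) := by ring
      _ ≤ 4 / 9 * 3.17 * 1 := by gcongr
      _ = _ := by ring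
  linarith

/-- the anti-concentration for the words of length `n + 2` -/
theorem anti_words (n : ℕ) (x : ℝ) :
    (#(univ.filter fun g : Fin n → Bool => x ≤ Real.logb 2 (V (Phi true true fun i => bl (g i))) ∧
      Real.logb 2 (V (Phi true true fun i => bl (g i))) < x + 1) : ℝ) ≤ 2 ^ n * (5 / √((n + 2 : ℕ) : ℝ)) := by
  classical
  obtain ⟨k, m, hm, rfl⟩ : ∃ k m, m = (k + m + 2) / 10 ∧ n = k + m :=
    ⟨n - (n + 2) / 10, (n + 2) / 10, by omega, by omega⟩
  refine le_trans ?_ ((two_parts k m x).trans (mul_le_mul_of_nonneg_left (numeric k m hm) (by positivity)))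
  rw [Nat.cast_le]
  refine card_le_card_of_injOn (fun g => (fun i => g (Fin.castAdd m i), fun i => g (Fin.natAdd k i))) ?_ ?_
  · intro g hg
    rw [mem_coe, mem_filter] at hg
    rw [mem_coe, mem_filter]
    refine ⟨mem_univ _, ?_⟩
    have h1 : Phi true true (fun i => bl (g i)) = Lt.z :: (List.ofFn fun i => bl (g (Fin.castAdd m i))) ++
        ((List.ofFn fun i => bl (g (Fin.natAdd k i))) ++ [Lt.p]) := by
      unfold Phi
      rw [← List.append_assoc, List.cons_append, List.cons_append]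
      congr 2
      rw [List.ofFn_add]
      rfl
    have h2 := hg.2
    rw [h1] at h2
    exact h2
  · intro g _ g' _ h
    have h1 := (Prod.ext_iff.1 h).1
    have h2 := (Prod.ext_iff.1 h).2
    simp only at h1 h2
    funext i
    refine Fin.addCases (fun j => ?_) (fun j => ?_) i
    · exact congrFun h1 j
    · exact congrFun h2 j

end Run7.h867.MZ
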