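import Mathlib
import Pool.Agent.Run7.h867.MZ.Words

/-!
# The indices of the multiple zeta values of weight `n + 2` (helper867)
-/

set_option autoImplicit false

namespace Run7.h867.MZ

open Finset Filter Topology Run7.h867.AM

/-- the sum of `∏ 1 / l_j ^ s_j` over `m > l_1 > ... > l_r ≥ 1` -/
noncomputable def tr : List ℕ → ℕ → ℝ
  | [], _ => 1
  | a :: s, m => ∑ j ∈ Finset.Ico 1 m, 1 / (j : ℝ) ^ a * tr s j

/-- the multiple zeta value -/
noncomputable def mz (s : List ℕ) : ℝ := limUnder atTop (tr s)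

/-- admissible indices of weight `w` -/
def adm (w : ℕ) : Set (List ℕ) := {s | s ≠ [] ∧ (∀ a ∈ s, 1 ≤ a) ∧ s.head? ≠ some 1 ∧ s.sum = w}

def emb (s : List ℕ) : Ix := s.map fun a => (a, (1 : ℤ))

theorem tr_emb (s : List ℕ) : ∀ m, trunc (emb s) m = tr s m := by
  induction s with
  | nil => intro m; rfl
  | cons a s ih =>
    intro m
    show ∑ j ∈ Finset.Ico 1 m, ((1 : ℤ) : ℝ) ^ j / (j : ℝ) ^ a * trunc (emb s) j = _
    rw [tr]
    refine sum_congr rfl fun j _ => ?_
    rw [ih]
    simp

theorem mz_emb (s : List ℕ) : mz s = val (emb s) := by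
  have : tr s = trunc (emb s) := funext fun m => (tr_emb s m).symm
  rw [mz, AM.val, this]

theorem emb_gens {w : ℕ} {s : List ℕ} (h : s ∈ adm w) : emb s ∈ gens w := by
  obtain ⟨h1, h2, h3, h4⟩ := h
  refine ⟨?_, ?_, ?_, ?_⟩
  · intro h
    exact h1 (List.map_eq_nil_iff.1 h)
  · intro x hx
    obtain ⟨a, ha, rfl⟩ := List.mem_map.1 hx
    exact ⟨h2 a ha, Or.inl rfl⟩
  · intro h
    apply h3
    cases s with
    | nil => exact absurd rfl h1
    | cons a s =>
      have : (a, (1 : ℤ)) = (1, 1) := by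
        have h5 : (emb (a :: s)).head? = some (a, 1) := rfl
        rw [h5] at h
        exact Option.some.inj h
      rw [List.head?_cons]
      exact congrArg some (Prod.ext_iff.1 this).1
  · unfold weight emb
    rw [List.map_map]
    have : (Prod.fst ∘ fun a : ℕ => (a, (1 : ℤ))) = id := rfl
    rw [this, List.map_id, h4]

theorem fst_emb (s : List ℕ) : (emb s).map Prod.fst = s := by
  unfold emb
  rw [List.map_map]
  have : (Prod.fst ∘ fun a : ℕ => (a, (1 : ℤ))) = id := rfl
  rw [this, List.map_id]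

/-- the words without the letter `m` give the signs `1` -/
theorem ix_signs (u : List Lt) : ∀ k : ℕ, (∀ a ∈ u, a ≠ Lt.m) → ∀ x ∈ ix 1 k u, x.2 = 1 := by
  induction u with
  | nil => intro k _ x hx; simp [ix] at hx
  | cons a u ih =>
    intro k hu x hx
    have hu' : ∀ a ∈ u, a ≠ Lt.m := fun b hb => hu b (List.mem_cons_of_mem _ hb)
    cases a with
    | z => exact ih (k + 1) hu' x hx
    | p =>
      rcases List.mem_cons.1 hx with h | h
      · rw [h]
      · exact ih 0 hu' x h
    | m => exact absurd rfl (hu Lt.m (List.mem_cons_self ..))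

theorem emb_fst {l : Ix} (h : ∀ x ∈ l, x.2 = 1) : emb (l.map Prod.fst) = l := by
  unfold emb
  rw [List.map_map]
  conv_rhs => rw [← List.map_id l]
  refine List.map_congr_left fun x hx => ?_
  exact Prod.ext rfl (h x hx).symm

theorem wd_emb (s : List ℕ) : ∀ a ∈ wd 1 (emb s), a ≠ Lt.m := by
  induction s with
  | nil => intro a ha; simp [emb, wd] at ha
  | cons b s ih =>
    intro a ha
    have h : wd 1 (emb (b :: s)) = List.replicate (b - 1) Lt.z ++ lt (1 * 1) :: wd (1 * 1) (emb s) := rfl
    rw [h, mul_one, List.mem_append, List.mem_cons] at ha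
    rcases ha with ha | ha | ha
    · rw [List.eq_of_mem_replicate ha]; simp
    · rw [ha]; simp [lt]
    · exact ih a ha

/-- the word of a function -/
def wrd {n : ℕ} (g : Fin n → Bool) : List Lt := Phi true true fun i => bl (g i)

/-- the index of a function -/
noncomputable def jdx {n : ℕ} (g : Fin n → Bool) : List ℕ := (ix 1 0 (wrd g)).map Prod.fst

theorem wrd_nom {n : ℕ} (g : Fin n → Bool) : ∀ a ∈ wrd g, a ≠ Lt.m := by
  intro a ha
  unfold wrd Phi at ha
  rw [List.mem_cons, List.mem_append, List.mem_singleton, List.mem_ofFn] at ha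
  rcases ha with ha | ⟨i, hi⟩ | ha
  · rw [ha]; simp
  · rw [← hi]
    unfold bl
    split_ifs <;> simp
  · rw [ha]; simp

theorem emb_jdx {n : ℕ} (g : Fin n → Bool) : emb (jdx g) = ix 1 0 (wrd g) :=
  emb_fst (ix_signs _ 0 (wrd_nom g))

theorem wrd_inj {n : ℕ} : Function.Injective (wrd (n := n)) := by
  intro g g' h
  have h1 := (Phi_inj h).2.2
  funext i
  have h2 := congrFun h1 i
  simp only [bl] at h2
  cases h3 : g i <;> cases h4 : g' i <;> simp_all

theorem wd_jdx {n : ℕ} (g : Fin n → Bool) : wd 1 (emb (jdx g)) = wrd g := by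
  rw [emb_jdx]
  have := wd_ix (wrd g) 1 0 (Or.inl rfl) (Phi_good _ _ _) (Phi_ne _ _ _)
  simpa using this

theorem jdx_inj {n : ℕ} : Function.Injective (jdx (n := n)) := by
  intro g g' h
  apply wrd_inj
  rw [← wd_jdx g, ← wd_jdx g', h]

theorem jdx_mem {n : ℕ} (g : Fin n → Bool) : jdx g ∈ adm (n + 2) := by
  have h1 : ix 1 0 (wrd g) ∈ gens (n + 2) := idx_mem (true, true, fun i => bl (g i))
  have hs := ix_signs (wrd g) 0 (wrd_nom g)
  obtain ⟨h2, h3, h4, h5⟩ := h1
  refine ⟨?_, ?_, ?_, h5⟩
  · intro h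
    exact h2 (List.map_eq_nil_iff.1 h)
  · intro a ha
    obtain ⟨x, hx, rfl⟩ := List.mem_map.1 ha
    exact (h3 x hx).1
  · intro h
    apply h4
    unfold jdx at h
    cases hl : ix 1 0 (wrd g) with
    | nil => exact absurd hl h2
    | cons x l =>
      rw [hl, List.map_cons, List.head?_cons, Option.some.injEq] at h
      rw [List.head?_cons]
      congr 1
      refine Prod.ext h (hs x ?_)
      rw [hl]
      exact List.mem_cons_self ..

theorem exists_jdx {n : ℕ} {s : List ℕ} (h : s ∈ adm (n + 2)) : ∃ g : Fin n → Bool, jdx g = s := by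
  have hg := emb_gens h
  obtain ⟨x, hx⟩ := gens_idx hg
  obtain ⟨b, t, f⟩ := x
  have h1 := wd_idx (b, t, f)
  rw [hx] at h1
  have hno := wd_emb s
  rw [h1] at hno
  simp only at hno
  have hb : b = true := by
    by_contra hb
    have : b = false := by simpa using hb
    subst this
    exact hno Lt.m (by simp [Phi]) rfl
  have ht : t = true := by
    by_contra ht
    have : t = false := by simpa using ht
    subst this
    exact hno Lt.m (by simp [Phi]) rfl
  subst hb ht
  have hf : ∀ i, f i ≠ Lt.m := by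
    intro i hi
    exact hno Lt.m (by
      unfold Phi
      rw [List.mem_cons, List.mem_append, List.mem_ofFn]
      exact Or.inr (Or.inl ⟨i, hi⟩)) rfl
  refine ⟨fun i => decide (f i = Lt.p), ?_⟩
  have h2 : wrd (fun i => decide (f i = Lt.p)) = Phi true true f := by
    unfold wrd
    congr 1
    funext i
    unfold bl
    cases h3 : f i with
    | z => simp [h3]
    | p => simp [h3]
    | m => exact absurd h3 (hf i)
  unfold jdx
  rw [h2]
  have h3 : idx (true, true, f) = ix 1 0 (Phi true true f) := rfl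
  rw [← h3, hx, fst_emb]

/-- the finite set of the admissible indices of weight `n + 2` -/
noncomputable def A (n : ℕ) : Finset (List ℕ) := univ.image (jdx (n := n))

theorem mem_A {n : ℕ} {s : List ℕ} : s ∈ A n ↔ s ∈ adm (n + 2) := by
  unfold A
  rw [mem_image]
  constructor
  · rintro ⟨g, -, rfl⟩
    exact jdx_mem g
  · intro h
    obtain ⟨g, hg⟩ := exists_jdx h
    exact ⟨g, mem_univ _, hg⟩

theorem card_A (n : ℕ) : #(A n) = 2 ^ n := by
  unfold A
  rw [card_image_of_injective _ jdx_inj, card_univ, Fintype.card_fun, Fintype.card_bool, Fintype.card_fin]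

theorem abs_mz {n : ℕ} (g : Fin n → Bool) : |mz (jdx g)| = V (wrd g) := by
  rw [mz_emb, abs_val (emb_gens (jdx_mem g)), wd_jdx]

theorem tr_nonneg (s : List ℕ) : ∀ m, 0 ≤ tr s m := by
  induction s with
  | nil => intro m; exact zero_le_one
  | cons a s ih =>
    intro m
    rw [tr]
    exact sum_nonneg fun j _ => mul_nonneg (by positivity) (ih j)

theorem tendsto_tr {w : ℕ} {s : List ℕ} (h : s ∈ adm w) : Tendsto (tr s) atTop (𝓝 (mz s)) := by
  have := tendsto_val (emb_gens h)
  rw [← mz_emb] at this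
  exact this.congr fun m => tr_emb s m

theorem mz_pos {n : ℕ} {s : List ℕ} (h : s ∈ adm (n + 2)) : 0 < mz s := by
  have h0 : 0 ≤ mz s := ge_of_tendsto' (tendsto_tr h) (tr_nonneg s)
  obtain ⟨g, rfl⟩ := exists_jdx h
  have h1 : 0 < |mz (jdx g)| := by
    rw [abs_mz]
    exact V_pos (by simp) (Phi_good _ _ _)
  exact lt_of_le_of_ne h0 fun h => by rw [← h, abs_zero] at h1; exact lt_irrefl _ h1

theorem anti_A (n : ℕ) (x : ℝ) :
    (#((A n).filter fun s => x ≤ Real.logb 2 |mz s| ∧ Real.logb 2 |mz s| < x + 1) : ℝ) ≤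
      #(A n) * (5 / √((n + 2 : ℕ) : ℝ)) := by
  classical
  rw [card_A]
  push_cast
  have h := anti_words n x
  push_cast at h
  refine le_trans ?_ h
  rw [Nat.cast_le]
  refine (card_le_card (t := (univ.filter fun g : Fin n → Bool =>
    x ≤ Real.logb 2 (V (Phi true true fun i => bl (g i))) ∧
      Real.logb 2 (V (Phi true true fun i => bl (g i))) < x + 1).image jdx) ?_).trans card_image_le
  intro s hs
  rw [mem_filter] at hs
  obtain ⟨g, rfl⟩ := exists_jdx (mem_A.1 hs.1)
  rw [abs_mz] at hs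
  rw [mem_image]
  refine ⟨g, ?_, rfl⟩
  rw [mem_filter]
  exact ⟨mem_univ _, hs.2⟩

end Run7.h867.MZ
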