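import Mathlib
import Pool.Agent.Run7.h867.MZ.Ineq

/-!
# The dual inequality between iterated integrals (helper867)

With `P(v)` the number of the letters `p` of `v` and `q(u)` the number of the letters of `u` which are not `p`
`P(v) V(u z v) ≤ V(u v) ≤ q(u) (V(u z v) + V(u p v))`.
-/

set_option autoImplicit false

namespace Run7.h867.MZ

open Finset Filter Topology Run7.h867.AM

/-- the number of the letters `p` -/
def cp : List Lt → ℕ
  | [] => 0
  | Lt.p :: u => cp u + 1
  | _ :: u => cp u

/-- the number of the letters which are not `p` -/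
def np : List Lt → ℕ
  | [] => 0
  | Lt.p :: u => np u
  | _ :: u => np u + 1

/-- the growth of `F v` from below -/
theorem growth2 (v : List Lt) : Good v → ∀ x, 0 < x → x < 1 → cp v * F v x ≤ x * deriv (F v) x := by
  induction v with
  | nil =>
    intro _ x _ _
    have : F [] = fun _ => (1 : ℝ) := funext fun y => F_nil y
    rw [this]
    simp [cp]
  | cons a v ih =>
    intro hg x hx0 hx1
    have ih' := ih hg.2
    rw [dF_cons hg hx0 hx1]
    cases a with
    | z =>
      have hv : v ≠ [] := fun h => hg.1 h rfl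
      have key := nonneg_of_deriv (G := fun y => F v y - cp v * F (Lt.z :: v) y)
        (G' := fun y => deriv (F v) y - cp v * deriv (F (Lt.z :: v)) y)
        (fun y hy => (dF_hd _ hy).sub ((dF_hd _ hy).const_mul _))
        (by simp only [F_zero' hv, F_zero]; ring)
        (fun y hy0 hy1 => by
          rw [dF_cons hg hy0 hy1]
          have h1 := ih' y hy0 hy1
          have h4 : cp v * (ker Lt.z y * F v y) = cp v * F v y / y := by
            unfold AM.ker; ring
          rw [h4, sub_nonneg, div_le_iff₀ hy0]
          linarith) x hx0.le hx1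
      have h5 : x * (ker Lt.z x * F v x) = F v x := by
        unfold AM.ker
        field_simp
      rw [h5]
      show (cp v : ℝ) * F (Lt.z :: v) x ≤ _
      linarith
    | p =>
      have hq : ∀ y : ℝ, |y| < 1 → HasDerivAt (fun y : ℝ => y / (1 - y))
          ((1 * (1 - y) - y * (0 - 1)) / (1 - y) ^ 2) y := by
        intro y hy
        have : 1 - y ≠ 0 := by linarith [(abs_lt.1 hy).2]
        exact (hasDerivAt_id y).div ((hasDerivAt_const y (1 : ℝ)).sub (hasDerivAt_id y)) this
      have key := nonneg_of_deriv (G := fun y => y / (1 - y) * F v y - (cp v + 1 : ℝ) * F (Lt.p :: v) y)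
        (G' := fun y => ((1 * (1 - y) - y * (0 - 1)) / (1 - y) ^ 2 * F v y + y / (1 - y) * deriv (F v) y) -
          (cp v + 1 : ℝ) * deriv (F (Lt.p :: v)) y)
        (fun y hy => ((hq y hy).mul (dF_hd _ hy)).sub ((dF_hd _ hy).const_mul _))
        (by simp only [F_zero]; ring)
        (fun y hy0 hy1 => by
          rw [dF_cons hg hy0 hy1]
          have h1 := ih' y hy0 hy1
          have h2 := F_nonneg hg.2 hy0.le hy1
          have h0 : 0 < 1 - y := by linarith
          have h3 : (1 * (1 - y) - y * (0 - 1)) / (1 - y) ^ 2 * F v y + y / (1 - y) * deriv (F v) y -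
              (cp v + 1 : ℝ) * (ker Lt.p y * F v y) =
              (y * deriv (F v) y - cp v * F v y) / (1 - y) + F v y * (y / (1 - y) ^ 2) := by
            unfold AM.ker
            field_simp
            ring
          rw [h3]
          have h4 : 0 ≤ (y * deriv (F v) y - cp v * F v y) / (1 - y) := div_nonneg (by linarith) h0.le
          have h5 : 0 ≤ F v y * (y / (1 - y) ^ 2) := by positivity
          linarith) x hx0.le hx1
      have h5 : x * (ker Lt.p x * F v x) = x / (1 - x) * F v x := by
        unfold AM.ker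
        ring
      rw [h5]
      show ((cp v + 1 : ℕ) : ℝ) * F (Lt.p :: v) x ≤ _
      push_cast
      linarith
    | m =>
      have hq : ∀ y : ℝ, |y| < 1 → HasDerivAt (fun y : ℝ => y / (1 + y))
          ((1 * (1 + y) - y * (0 + 1)) / (1 + y) ^ 2) y := by
        intro y hy
        have : 1 + y ≠ 0 := by linarith [(abs_lt.1 hy).1]
        exact (hasDerivAt_id y).div ((hasDerivAt_const y (1 : ℝ)).add (hasDerivAt_id y)) this
      have key := nonneg_of_deriv (G := fun y => y / (1 + y) * F v y - (cp v : ℝ) * F (Lt.m :: v) y)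
        (G' := fun y => ((1 * (1 + y) - y * (0 + 1)) / (1 + y) ^ 2 * F v y + y / (1 + y) * deriv (F v) y) -
          (cp v : ℝ) * deriv (F (Lt.m :: v)) y)
        (fun y hy => ((hq y hy).mul (dF_hd _ hy)).sub ((dF_hd _ hy).const_mul _))
        (by simp only [F_zero]; ring)
        (fun y hy0 hy1 => by
          rw [dF_cons hg hy0 hy1]
          have h1 := ih' y hy0 hy1
          have h2 := F_nonneg hg.2 hy0.le hy1
          have h0 : 0 < 1 + y := by linarith
          have h3 : (1 * (1 + y) - y * (0 + 1)) / (1 + y) ^ 2 * F v y + y / (1 + y) * deriv (F v) y -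
              (cp v : ℝ) * (ker Lt.m y * F v y) =
              (y * deriv (F v) y - cp v * F v y) / (1 + y) + F v y * (1 / (1 + y) ^ 2) := by
            unfold AM.ker
            field_simp
            ring
          rw [h3]
          have h4 : 0 ≤ (y * deriv (F v) y - cp v * F v y) / (1 + y) := div_nonneg (by linarith) h0.le
          have h5 : 0 ≤ F v y * (1 / (1 + y) ^ 2) := by positivity
          linarith) x hx0.le hx1
      have h5 : x * (ker Lt.m x * F v x) = x / (1 + x) * F v x := by
        unfold AM.ker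
        ring
      rw [h5]
      show (cp v : ℝ) * F (Lt.m :: v) x ≤ _
      linarith

/-- the lower bound -/
theorem lower2 {v : List Lt} (hv : Good v) (hne : v ≠ []) (u : List Lt) : ∀ x, 0 < x → x < 1 →
    cp v * F (u ++ Lt.z :: v) x ≤ F (u ++ v) x := by
  induction u with
  | nil =>
    intro x hx0 hx1
    have key := nonneg_of_deriv (G := fun y => F v y - cp v * F (Lt.z :: v) y)
      (G' := fun y => deriv (F v) y - cp v * deriv (F (Lt.z :: v)) y)
      (fun y hy => (dF_hd _ hy).sub ((dF_hd _ hy).const_mul _))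
      (by simp only [F_zero, F_zero' hne]; ring)
      (fun y hy0 hy1 => by
        rw [dF_cons (good_cons hv hne _) hy0 hy1]
        have h1 := growth2 v hv y hy0 hy1
        have h4 : cp v * (ker Lt.z y * F v y) = cp v * F v y / y := by
          unfold AM.ker; ring
        rw [h4, sub_nonneg, div_le_iff₀ hy0]
        linarith) x hx0.le hx1
    simp only [List.nil_append]
    linarith
  | cons a u ih =>
    intro x hx0 hx1
    have hg1 : Good (a :: (u ++ v)) := good_app hv hne (a :: u)
    have hg2 : Good (a :: (u ++ Lt.z :: v)) := good_app (good_cons hv hne _) (by simp) (a :: u)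
    have key := nonneg_of_deriv
      (G := fun y => F (a :: (u ++ v)) y - cp v * F (a :: (u ++ Lt.z :: v)) y)
      (G' := fun y => deriv (F (a :: (u ++ v))) y - cp v * deriv (F (a :: (u ++ Lt.z :: v))) y)
      (fun y hy => (dF_hd _ hy).sub ((dF_hd _ hy).const_mul _))
      (by simp only [F_zero]; ring)
      (fun y hy0 hy1 => by
        rw [dF_cons hg1 hy0 hy1, dF_cons hg2 hy0 hy1]
        have h1 := ih y hy0 hy1
        have h2 := ker_pos a hy0 hy1
        nlinarith) x hx0.le hx1
    simp only [List.cons_append]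
    linarith

/-- the upper bound, with a boundary term -/
theorem upper2 {v : List Lt} (hv : Good v) (hne : v ≠ []) (u : List Lt) : ∀ x, 0 < x → x < 1 →
    F (u ++ v) x ≤ x * (1 - x) * (deriv (F (u ++ Lt.z :: v)) x + deriv (F (u ++ Lt.p :: v)) x) +
      np u * (F (u ++ Lt.z :: v) x + F (u ++ Lt.p :: v) x) := by
  induction u with
  | nil =>
    intro x hx0 hx1
    show F v x ≤ x * (1 - x) * (deriv (F (Lt.z :: v)) x + deriv (F (Lt.p :: v)) x) +
      ((0 : ℕ) : ℝ) * (F (Lt.z :: v) x + F (Lt.p :: v) x)
    rw [dF_cons (good_cons hv hne _) hx0 hx1, dF_cons (good_cons hv hne _) hx0 hx1]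
    have h0 : (1 - x) ≠ 0 := by linarith
    have : x * (1 - x) * (ker Lt.z x * F v x + ker Lt.p x * F v x) = F v x := by
      unfold AM.ker
      field_simp
      ring
    rw [this]
    simp
  | cons a u ih =>
    intro x hx0 hx1
    have hg1 : Good (a :: (u ++ v)) := good_app hv hne (a :: u)
    have hg2 : Good (a :: (u ++ Lt.z :: v)) := good_app (good_cons hv hne _) (by simp) (a :: u)
    have hg3 : Good (a :: (u ++ Lt.p :: v)) := good_app (good_cons hv hne _) (by simp) (a :: u)
    obtain ⟨W, hW⟩ : ∃ W, W = u ++ Lt.p :: v := ⟨_, rfl⟩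
    obtain ⟨U, hU⟩ : ∃ U, U = u ++ Lt.z :: v := ⟨_, rfl⟩
    have hWne : W ≠ [] := by rw [hW]; simp
    have hUne : U ≠ [] := by rw [hU]; simp
    have hWg : Good W := by rw [hW]; exact good_app (good_cons hv hne _) (by simp) u
    have hUg : Good U := by rw [hU]; exact good_app (good_cons hv hne _) (by simp) u
    simp only [List.cons_append]
    rw [← hW, ← hU] at ih ⊢
    rw [← hW] at hg3
    rw [← hU] at hg2
    rw [dF_cons hg3 hx0 hx1, dF_cons hg2 hx0 hx1]
    cases a with
    | z =>
      have key := nonneg_of_deriv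
        (G := fun y => ((1 - y) * (F U y + F W y) + (np u + 1 : ℝ) * (F (Lt.z :: U) y + F (Lt.z :: W) y)) -
          F (Lt.z :: (u ++ v)) y)
        (G' := fun y => (((0 - 1) * (F U y + F W y) + (1 - y) * (deriv (F U) y + deriv (F W) y)) +
          (np u + 1 : ℝ) * (deriv (F (Lt.z :: U)) y + deriv (F (Lt.z :: W)) y)) - deriv (F (Lt.z :: (u ++ v))) y)
        (fun y hy => (((((hasDerivAt_const y (1 : ℝ)).sub (hasDerivAt_id y)).mul
          ((dF_hd _ hy).add (dF_hd _ hy))).add (((dF_hd _ hy).add (dF_hd _ hy)).const_mul _)).sub (dF_hd _ hy)))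
        (by simp only [F_zero, F_zero' hWne, F_zero' hUne]; ring)
        (fun y hy0 hy1 => by
          rw [dF_cons hg1 hy0 hy1, dF_cons hg2 hy0 hy1, dF_cons hg3 hy0 hy1]
          have h1 := ih y hy0 hy1
          have h2 := F_nonneg hWg hy0.le hy1
          have h2' := F_nonneg hUg hy0.le hy1
          have h3 : (((0 - 1) * (F U y + F W y) + (1 - y) * (deriv (F U) y + deriv (F W) y)) +
              (np u + 1 : ℝ) * (ker Lt.z y * F U y + ker Lt.z y * F W y)) - ker Lt.z y * F (u ++ v) y =
              (1 / y) * (y * (1 - y) * (deriv (F U) y + deriv (F W) y) + np u * (F U y + F W y) - F (u ++ v) y) +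
                (F U y + F W y) * ((1 - y) / y) := by
            unfold AM.ker
            field_simp
            ring
          rw [h3]
          have h4 : 0 ≤ (1 / y) * (y * (1 - y) * (deriv (F U) y + deriv (F W) y) + np u * (F U y + F W y) -
              F (u ++ v) y) := mul_nonneg (by positivity) (by linarith)
          have h5 : 0 ≤ (F U y + F W y) * ((1 - y) / y) :=
            mul_nonneg (by positivity) (div_nonneg (by linarith) (by positivity))
          linarith) x hx0.le hx1
      have h6 : x * (1 - x) * (ker Lt.z x * F U x + ker Lt.z x * F W x) = (1 - x) * (F U x + F W x) := by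
        unfold AM.ker
        field_simp
      rw [h6]
      show _ ≤ _ + ((np u + 1 : ℕ) : ℝ) * (F (Lt.z :: U) x + F (Lt.z :: W) x)
      push_cast
      linarith
    | p =>
      have key := nonneg_of_deriv
        (G := fun y => (y * (F U y + F W y) + (np u : ℝ) * (F (Lt.p :: U) y + F (Lt.p :: W) y)) -
          F (Lt.p :: (u ++ v)) y)
        (G' := fun y => ((1 * (F U y + F W y) + y * (deriv (F U) y + deriv (F W) y)) +
          (np u : ℝ) * (deriv (F (Lt.p :: U)) y + deriv (F (Lt.p :: W)) y)) - deriv (F (Lt.p :: (u ++ v))) y)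
        (fun y hy => (((hasDerivAt_id y).mul
          ((dF_hd _ hy).add (dF_hd _ hy))).add (((dF_hd _ hy).add (dF_hd _ hy)).const_mul _)).sub (dF_hd _ hy))
        (by simp only [F_zero]; ring)
        (fun y hy0 hy1 => by
          rw [dF_cons hg1 hy0 hy1, dF_cons hg2 hy0 hy1, dF_cons hg3 hy0 hy1]
          have h1 := ih y hy0 hy1
          have h2 := F_nonneg hWg hy0.le hy1
          have h2' := F_nonneg hUg hy0.le hy1
          have h0 : 0 < 1 - y := by linarith
          have h3 : ((1 * (F U y + F W y) + y * (deriv (F U) y + deriv (F W) y)) +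
              (np u : ℝ) * (ker Lt.p y * F U y + ker Lt.p y * F W y)) - ker Lt.p y * F (u ++ v) y =
              (1 / (1 - y)) * (y * (1 - y) * (deriv (F U) y + deriv (F W) y) + np u * (F U y + F W y) -
                F (u ++ v) y) + (F U y + F W y) := by
            unfold AM.ker
            field_simp
            ring
          rw [h3]
          have h4 : 0 ≤ (1 / (1 - y)) * (y * (1 - y) * (deriv (F U) y + deriv (F W) y) + np u * (F U y + F W y) -
              F (u ++ v) y) := mul_nonneg (by positivity) (by linarith)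
          linarith) x hx0.le hx1
      have h0 : (1 - x) ≠ 0 := by linarith
      have h6 : x * (1 - x) * (ker Lt.p x * F U x + ker Lt.p x * F W x) = x * (F U x + F W x) := by
        unfold AM.ker
        field_simp
      rw [h6]
      show _ ≤ _ + (np u : ℝ) * (F (Lt.p :: U) x + F (Lt.p :: W) x)
      linarith
    | m =>
      have hq : ∀ y : ℝ, |y| < 1 → HasDerivAt (fun y : ℝ => y * (1 - y) / (1 + y))
          (((1 * (1 - y) + y * (0 - 1)) * (1 + y) - y * (1 - y) * (0 + 1)) / (1 + y) ^ 2) y := by
        intro y hy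
        have : 1 + y ≠ 0 := by linarith [(abs_lt.1 hy).1]
        exact ((hasDerivAt_id y).mul ((hasDerivAt_const y (1 : ℝ)).sub (hasDerivAt_id y))).div
          ((hasDerivAt_const y (1 : ℝ)).add (hasDerivAt_id y)) this
      have key := nonneg_of_deriv
        (G := fun y => ((y * (1 - y) / (1 + y)) * (F U y + F W y) +
          (np u + 1 : ℝ) * (F (Lt.m :: U) y + F (Lt.m :: W) y)) - F (Lt.m :: (u ++ v)) y)
        (G' := fun y => ((((1 * (1 - y) + y * (0 - 1)) * (1 + y) - y * (1 - y) * (0 + 1)) / (1 + y) ^ 2 *
            (F U y + F W y) + (y * (1 - y) / (1 + y)) * (deriv (F U) y + deriv (F W) y)) +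
          (np u + 1 : ℝ) * (deriv (F (Lt.m :: U)) y + deriv (F (Lt.m :: W)) y)) - deriv (F (Lt.m :: (u ++ v))) y)
        (fun y hy => (((hq y hy).mul
          ((dF_hd _ hy).add (dF_hd _ hy))).add (((dF_hd _ hy).add (dF_hd _ hy)).const_mul _)).sub (dF_hd _ hy))
        (by simp only [F_zero, F_zero' hWne, F_zero' hUne]; ring)
        (fun y hy0 hy1 => by
          rw [dF_cons hg1 hy0 hy1, dF_cons hg2 hy0 hy1, dF_cons hg3 hy0 hy1]
          have h1 := ih y hy0 hy1
          have h2 := F_nonneg hWg hy0.le hy1
          have h2' := F_nonneg hUg hy0.le hy1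
          have h0 : 0 < 1 + y := by linarith
          have h3 : ((((1 * (1 - y) + y * (0 - 1)) * (1 + y) - y * (1 - y) * (0 + 1)) / (1 + y) ^ 2 *
              (F U y + F W y) + (y * (1 - y) / (1 + y)) * (deriv (F U) y + deriv (F W) y)) +
              (np u + 1 : ℝ) * (ker Lt.m y * F U y + ker Lt.m y * F W y)) - ker Lt.m y * F (u ++ v) y =
              (1 / (1 + y)) * (y * (1 - y) * (deriv (F U) y + deriv (F W) y) + np u * (F U y + F W y) -
                F (u ++ v) y) + (F U y + F W y) * ((1 - y) * (2 + y) / (1 + y) ^ 2) := by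
            unfold AM.ker
            field_simp
            ring
          rw [h3]
          have h4 : 0 ≤ (1 / (1 + y)) * (y * (1 - y) * (deriv (F U) y + deriv (F W) y) + np u * (F U y + F W y) -
              F (u ++ v) y) := mul_nonneg (by positivity) (by linarith)
          have h5 : 0 ≤ (F U y + F W y) * ((1 - y) * (2 + y) / (1 + y) ^ 2) := by
            have : 0 ≤ 1 - y := by linarith
            positivity
          linarith) x hx0.le hx1
      have h6 : x * (1 - x) * (ker Lt.m x * F U x + ker Lt.m x * F W x) =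
          (x * (1 - x) / (1 + x)) * (F U x + F W x) := by
        unfold AM.ker
        ring
      rw [h6]
      show _ ≤ _ + ((np u + 1 : ℕ) : ℝ) * (F (Lt.m :: U) x + F (Lt.m :: W) x)
      push_cast
      linarith

/-- the boundary term tends to zero -/
theorem boundary (u : List Lt) : Tendsto (fun x => (1 - x) * F u x) (𝓝[<] 1) (𝓝 0) := by
  obtain ⟨C, hC, h1, -⟩ := bound u
  obtain ⟨f, hf⟩ : ∃ f : ℕ → ℝ, f = fun n => co u n - (if n = 0 then 0 else co u (n - 1)) := ⟨_, rfl⟩
  have hpart : ∀ N, ∑ n ∈ range (N + 1), f n = co u N := by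
    intro N
    induction N with
    | zero => simp [hf]
    | succ N ih =>
      rw [sum_range_succ, ih, hf]
      simp
  have hco : Tendsto (co u) atTop (𝓝 0) := by
    have h3 : Tendsto (fun n : ℕ => C / √(n : ℝ)) atTop (𝓝 0) := by
      refine Tendsto.div_atTop tendsto_const_nhds ?_
      exact Real.tendsto_sqrt_atTop.comp tendsto_natCast_atTop_atTop
    refine squeeze_zero_norm' ?_ h3
    filter_upwards [eventually_ge_atTop 1] with n hn
    exact h1 n hn
  have hlim : Tendsto (fun N => ∑ n ∈ range N, f n) atTop (𝓝 0) := by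
    rw [← tendsto_add_atTop_iff_nat 1]
    exact hco.congr fun N => (hpart N).symm
  have h2 := Real.tendsto_tsum_powerSeries_nhdsWithin_lt hlim
  refine h2.congr' ?_
  filter_upwards [ev_near] with x hx
  have hx' : |x| < 1 := by rw [abs_of_nonneg (by linarith [hx.1])]; exact hx.2
  have hs := summable_co u hx'
  have hs2 : Summable fun n => (if n = 0 then 0 else co u (n - 1)) * x ^ n := by
    rw [← summable_nat_add_iff 1]
    refine (hs.mul_left x).congr fun n => ?_
    simp only [Nat.add_eq_zero_iff, one_ne_zero, and_false, if_false, Nat.add_sub_cancel]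
    ring
  have h3 : ∑' n, (if n = 0 then 0 else co u (n - 1)) * x ^ n = x * F u x := by
    rw [hs2.tsum_eq_zero_add]
    simp only [if_true, zero_mul, zero_add, Nat.add_eq_zero_iff, one_ne_zero, and_false, if_false,
      Nat.add_sub_cancel]
    unfold F
    rw [← tsum_mul_left]
    refine tsum_congr fun n => ?_
    ring
  have h4 : ∑' n, f n * x ^ n = F u x - x * F u x := by
    rw [← h3, hf]
    unfold F
    rw [← hs.tsum_sub hs2]
    refine tsum_congr fun n => ?_
    ring
  rw [h4]
  ring

/-- the dual comparison of the values at `1` -/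
theorem V_step2 {v : List Lt} (hv : Good v) (hne : v ≠ []) {a : Lt} (ha : a ≠ Lt.p) (u : List Lt) :
    cp v * V (a :: u ++ Lt.z :: v) ≤ np (a :: u) * (V (a :: u ++ Lt.z :: v) + V (a :: u ++ Lt.p :: v)) := by
  have h1 : Tendsto (F (a :: u ++ Lt.p :: v)) (𝓝[<] 1) (𝓝 (V (a :: u ++ Lt.p :: v))) := F_tendsto ha
  have h2 : Tendsto (F (a :: u ++ Lt.z :: v)) (𝓝[<] 1) (𝓝 (V (a :: u ++ Lt.z :: v))) := F_tendsto ha
  have hb : Tendsto (fun x => (1 - x) * F (u ++ Lt.z :: v) x + (1 - x) * F (u ++ Lt.p :: v) x) (𝓝[<] 1)
      (𝓝 (0 + 0)) := (boundary _).add (boundary _)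
  have h3 := hb.add ((h2.add h1).const_mul (np (a :: u) : ℝ))
  rw [add_zero, zero_add] at h3
  refine le_of_tendsto_of_tendsto (h2.const_mul _) h3 ?_
  filter_upwards [ev_near] with x hx
  have hx0 : 0 < x := by linarith [hx.1]
  have hx1 := hx.2
  have hg2 : Good (a :: (u ++ Lt.z :: v)) := good_app (good_cons hv hne _) (by simp) (a :: u)
  have hg3 : Good (a :: (u ++ Lt.p :: v)) := good_app (good_cons hv hne _) (by simp) (a :: u)
  refine (lower2 hv hne (a :: u) x hx0 hx1).trans ((upper2 hv hne (a :: u) x hx0 hx1).trans ?_)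
  simp only [List.cons_append]
  rw [dF_cons hg2 hx0 hx1, dF_cons hg3 hx0 hx1]
  have h4 : x * (1 - x) * (ker a x * F (u ++ Lt.z :: v) x + ker a x * F (u ++ Lt.p :: v) x) =
      (x * ker a x) * ((1 - x) * F (u ++ Lt.z :: v) x + (1 - x) * F (u ++ Lt.p :: v) x) := by ring
  rw [h4]
  have h5 : x * ker a x ≤ 1 := by
    cases a with
    | z => unfold AM.ker; rw [mul_one_div, div_self hx0.ne']
    | p => exact absurd rfl ha
    | m => unfold AM.ker; rw [mul_one_div, div_le_one (by positivity)]; linarith
  have h6 : 0 ≤ (1 - x) * F (u ++ Lt.z :: v) x + (1 - x) * F (u ++ Lt.p :: v) x := by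
    have e1 := F_nonneg hg2.2 hx0.le hx1
    have e2 := F_nonneg hg3.2 hx0.le hx1
    have e3 : 0 ≤ 1 - x := by linarith
    positivity
  have h7 := mul_le_mul_of_nonneg_right h5 h6
  rw [one_mul] at h7
  linarith

end Run7.h867.MZ
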