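import Mathlib
import Pool.Agent.Run7.h867.AM.Anti

/-!
# Combinatorics of the words with a given number of letters `p` (helper867)
-/

set_option autoImplicit false

namespace Run7.h867.SL

open Finset Polynomial

/-- the number of the indices with the value `none` -/
def M {m : ℕ} (k : Fin m → Option Bool) : ℕ := ∑ i, if k i = none then 1 else 0

/-- the number of the letters `p` of a pair -/
def vl : Option Bool → ℕ
  | none => 1
  | some true => 2
  | some false => 0

def cnt {m : ℕ} (k : Fin m → Option Bool) : ℕ := ∑ i, vl (k i)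

/-- the number of the values `true` -/
def tc {r : ℕ} (c : Fin r → Bool) : ℕ := ∑ i, if c i = true then 1 else 0

/-- the sum over the slice -/
noncomputable def A (m r s : ℕ) (h : ℕ → ℝ) : ℝ :=
  ∑ k : Fin m → Option Bool, ∑ c : Fin r → Bool, if cnt k + tc c = s then h (M k) else 0

theorem A_two (m r s : ℕ) : A m r s (fun j => 2 ^ j) = (2 * m + r).choose s := by
  obtain ⟨y, hy⟩ : ∃ y : Option Bool → ℝ[X], y = fun o => C (2 ^ (if o = none then 1 else 0) : ℝ) * X ^ vl o := ⟨_, rfl⟩
  have h1 : ∀ k : Fin m → Option Bool, ∏ i, y (k i) = C ((2 : ℝ) ^ M k) * X ^ cnt k := by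
    intro k
    rw [hy]
    simp only
    rw [prod_mul_distrib, prod_pow_eq_pow_sum, ← map_prod, prod_pow_eq_pow_sum]
    rfl
  have h2 : ∀ c : Fin r → Bool, ∏ i, (X : ℝ[X]) ^ (if c i = true then 1 else 0) = X ^ tc c := by
    intro c
    rw [prod_pow_eq_pow_sum]
    rfl
  have h3 : ∑ k : Fin m → Option Bool, ∏ i, y (k i) = ((1 + X) ^ 2) ^ m := by
    have := Finset.prod_univ_sum (fun _ : Fin m => (univ : Finset (Option Bool))) (fun _ o => y o)
    rw [Fintype.piFinset_univ] at this
    rw [← this, prod_const, card_univ, Fintype.card_fin]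
    congr 1
    rw [Fintype.sum_option, Fintype.sum_bool, hy]
    have h2 : (C (2 : ℝ) : ℝ[X]) = 2 := rfl
    simp [vl, h2]
    ring
  have h4 : ∑ c : Fin r → Bool, ∏ i, (X : ℝ[X]) ^ (if c i = true then 1 else 0) = (1 + X) ^ r := by
    have := Finset.prod_univ_sum (fun _ : Fin r => (univ : Finset Bool)) (fun _ b => (X : ℝ[X]) ^ (if b = true then 1 else 0))
    rw [Fintype.piFinset_univ] at this
    rw [← this, prod_const, card_univ, Fintype.card_fin]
    congr 1
    rw [Fintype.sum_bool]
    simp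
    ring
  have h5 : ∑ k : Fin m → Option Bool, ∑ c : Fin r → Bool, C ((2 : ℝ) ^ M k) * X ^ (cnt k + tc c) =
      (1 + X : ℝ[X]) ^ (2 * m + r) := by
    rw [pow_add, pow_mul, ← h3, ← h4, sum_mul_sum]
    refine sum_congr rfl fun k _ => sum_congr rfl fun c _ => ?_
    rw [h1, h2, pow_add, mul_assoc]
  have h6 := congrArg (fun P : ℝ[X] => P.coeff s) h5
  simp only [finsetSum_coeff, coeff_C_mul_X_pow, coeff_one_add_X_pow] at h6
  unfold A
  rw [← h6]
  refine sum_congr rfl fun k _ => sum_congr rfl fun c _ => ?_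
  by_cases h : cnt k + tc c = s
  · rw [if_pos h, if_pos h.symm]
  · rw [if_neg h, if_neg (fun h' => h h'.symm)]

theorem M_insert {m : ℕ} (i : Fin (m + 1)) (k : Fin m → Option Bool) :
    M (Fin.insertNth (α := fun _ => Option Bool) i none k) = M k + 1 := by
  unfold M
  rw [Fin.sum_univ_succAbove _ i]
  simp only [Fin.insertNth_apply_same, Fin.insertNth_apply_succAbove, if_true]
  ring

theorem cnt_insert {m : ℕ} (i : Fin (m + 1)) (k : Fin m → Option Bool) :
    cnt (Fin.insertNth (α := fun _ => Option Bool) i none k) = cnt k + 1 := by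
  unfold cnt
  rw [Fin.sum_univ_succAbove _ i]
  simp only [Fin.insertNth_apply_same, Fin.insertNth_apply_succAbove, vl]
  ring

/-- the double counting -/
theorem A_inv (m r s : ℕ) : 2 * ((m : ℝ) + 1) * A m r s (fun j => 2 ^ j / ((j : ℝ) + 1)) ≤
    A (m + 1) r (s + 1) (fun j => 2 ^ j) := by
  obtain ⟨f, hf⟩ : ∃ f : (Fin (m + 1) → Option Bool) → ℝ, f = fun k' => ∑ c : Fin r → Bool,
      if cnt k' + tc c = s + 1 then (2 : ℝ) ^ M k' / (M k' : ℝ) else 0 := ⟨_, rfl⟩
  -- counting the pairs
  have h1 : ∑ k' : Fin (m + 1) → Option Bool, ∑ i, (if k' i = none then f k' else 0) ≤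
      A (m + 1) r (s + 1) (fun j => 2 ^ j) := by
    unfold A
    refine sum_le_sum fun k' _ => ?_
    have e1 : ∑ i, (if k' i = none then f k' else 0) = (M k' : ℝ) * f k' := by
      have : (M k' : ℝ) = ∑ i, if k' i = none then (1 : ℝ) else 0 := by
        unfold M; push_cast; rfl
      rw [this, sum_mul]
      refine sum_congr rfl fun i _ => ?_
      split_ifs <;> simp
    rw [e1, hf]
    simp only
    rw [mul_sum]
    refine sum_le_sum fun c _ => ?_
    split_ifs with h
    · rcases Nat.eq_zero_or_pos (M k') with h0 | h0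
      · rw [h0]; simp
      · have : (M k' : ℝ) ≠ 0 := by positivity
        rw [mul_div_cancel₀ _ this]
    · simp
  have h2 : ∀ i : Fin (m + 1), ∑ k' : Fin (m + 1) → Option Bool, (if k' i = none then f k' else 0) =
      2 * A m r s (fun j => 2 ^ j / ((j : ℝ) + 1)) := by
    intro i
    rw [← (Fin.insertNthEquiv (fun _ => Option Bool) i).sum_comp, Fintype.sum_prod_type, Fintype.sum_option]
    have e2 : ∑ b : Bool, ∑ k : Fin m → Option Bool,
        (if (Fin.insertNthEquiv (fun _ => Option Bool) i) (some b, k) i = none then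
          f ((Fin.insertNthEquiv (fun _ => Option Bool) i) (some b, k)) else 0) = 0 := by
      refine sum_eq_zero fun b _ => sum_eq_zero fun k _ => ?_
      rw [Fin.insertNthEquiv_apply]
      simp
    rw [e2, add_zero]
    unfold A
    rw [mul_sum]
    refine sum_congr rfl fun k _ => ?_
    rw [Fin.insertNthEquiv_apply, Fin.insertNth_apply_same, if_pos rfl, hf]
    simp only
    rw [mul_sum]
    refine sum_congr rfl fun c _ => ?_
    show (if cnt (Fin.insertNth (α := fun _ => Option Bool) i none k) + tc c = s + 1 then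
      (2 : ℝ) ^ M (Fin.insertNth (α := fun _ => Option Bool) i none k) /
        (M (Fin.insertNth (α := fun _ => Option Bool) i none k) : ℝ) else 0) = _
    rw [M_insert, cnt_insert]
    by_cases h : cnt k + tc c = s
    · rw [if_pos h, if_pos (by omega)]
      push_cast
      rw [pow_succ]
      ring
    · rw [if_neg h, if_neg (by omega), mul_zero]
  rw [sum_comm] at h1
  rw [sum_congr rfl fun i _ => h2 i, sum_const, card_univ, Fintype.card_fin, nsmul_eq_mul] at h1
  push_cast at h1
  linarith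

/-- the constant -/
noncomputable def rho (m r s : ℕ) : ℝ :=
  ((2 * m + r : ℕ) + 2) * ((2 * m + r : ℕ) + 1) /
    (2 * ((m : ℝ) + 1) * (((s : ℝ) + 1) * (((2 * m + r - s : ℕ) : ℝ) + 1)))

theorem A_sqrt (m r s : ℕ) (hs : s ≤ 2 * m + r) : A m r s (fun j => 2 ^ j / √((j : ℝ) + 1)) ≤
    √(rho m r s) * (2 * m + r).choose s := by
  obtain ⟨n, hn⟩ : ∃ n, n = 2 * m + r := ⟨_, rfl⟩
  have hrho : 0 < rho m r s := by unfold rho; positivity
  obtain ⟨l, hl⟩ : ∃ l, l = √(rho m r s) := ⟨_, rfl⟩
  have hl0 : 0 < l := by rw [hl]; exact Real.sqrt_pos.2 hrho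
  have hll : l * l = rho m r s := by rw [hl]; exact Real.mul_self_sqrt hrho.le
  have h1 : A m r s (fun j => 2 ^ j / √((j : ℝ) + 1)) ≤
      1 / 2 * l * A m r s (fun j => 2 ^ j) + 1 / 2 * (1 / l) * A m r s (fun j => 2 ^ j / ((j : ℝ) + 1)) := by
    unfold A
    rw [mul_sum, mul_sum, ← sum_add_distrib]
    refine sum_le_sum fun k _ => ?_
    rw [mul_sum, mul_sum, ← sum_add_distrib]
    refine sum_le_sum fun c _ => ?_
    split_ifs with h
    · have h3 := Run7.h867.AM.amgm (lam := l) (y := (M k : ℝ) + 1) hl0 (by positivity)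
      have h4 : (0 : ℝ) ≤ 2 ^ M k := by positivity
      calc (2 : ℝ) ^ M k / √((M k : ℝ) + 1) = 2 ^ M k * (1 / √((M k : ℝ) + 1)) := by rw [mul_one_div]
        _ ≤ 2 ^ M k * ((l + 1 / (l * ((M k : ℝ) + 1))) / 2) := by gcongr
        _ = _ := by
            have : (M k : ℝ) + 1 ≠ 0 := by positivity
            field_simp
    · simp
  have h2 : A m r s (fun j => 2 ^ j / ((j : ℝ) + 1)) ≤ rho m r s * n.choose s := by
    have h3 := A_inv m r s
    rw [A_two] at h3
    have h4 : ((n + 2).choose (s + 1) : ℝ) * (((s : ℝ) + 1) * (((n - s : ℕ) : ℝ) + 1)) =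
        ((n : ℝ) + 2) * ((n : ℝ) + 1) * n.choose s := by
      have e1 := Nat.add_one_mul_choose_eq (n + 1) s
      have e2 := Nat.choose_mul_succ_eq n s
      have e3 : n + 1 - s = (n - s) + 1 := by omega
      rw [e3] at e2
      have e1' : ((n : ℝ) + 1 + 1) * (n + 1).choose s = (n + 2).choose (s + 1) * ((s : ℝ) + 1) := by exact_mod_cast e1
      have e2' : (n.choose s : ℝ) * ((n : ℝ) + 1) = (n + 1).choose s * (((n - s : ℕ) : ℝ) + 1) := by exact_mod_cast e2
      calc ((n + 2).choose (s + 1) : ℝ) * (((s : ℝ) + 1) * (((n - s : ℕ) : ℝ) + 1))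
          = ((n + 2).choose (s + 1) * ((s : ℝ) + 1)) * (((n - s : ℕ) : ℝ) + 1) := by ring
        _ = ((n : ℝ) + 2) * ((n + 1).choose s * (((n - s : ℕ) : ℝ) + 1)) := by rw [← e1']; ring
        _ = _ := by rw [← e2']; ring
    have h5 : (2 * (m + 1) + r).choose (s + 1) = (n + 2).choose (s + 1) := by
      congr 1
      omega
    rw [h5] at h3
    have h6 : (0 : ℝ) < ((s : ℝ) + 1) * (((n - s : ℕ) : ℝ) + 1) := by positivity
    have h7 : (0 : ℝ) < 2 * ((m : ℝ) + 1) := by positivity
    have h8 : A m r s (fun j => 2 ^ j / ((j : ℝ) + 1)) ≤ (n + 2).choose (s + 1) / (2 * ((m : ℝ) + 1)) := by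
      rw [le_div_iff₀ h7]
      linarith
    refine h8.trans (le_of_eq ?_)
    unfold rho
    rw [← hn, div_eq_iff h7.ne']
    have h9 : ((n + 2).choose (s + 1) : ℝ) = ((n : ℝ) + 2) * ((n : ℝ) + 1) * n.choose s /
        (((s : ℝ) + 1) * (((n - s : ℕ) : ℝ) + 1)) := by
      rw [eq_div_iff h6.ne']
      exact h4
    rw [h9]
    field_simp
  rw [A_two] at h1
  calc A m r s (fun j => 2 ^ j / √((j : ℝ) + 1)) ≤ _ := h1
    _ ≤ 1 / 2 * l * ((2 * m + r).choose s : ℝ) + 1 / 2 * (1 / l) * (rho m r s * n.choose s) := by gcongr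
    _ = l * (2 * m + r).choose s := by
        rw [← hll, ← hn]
        field_simp
        ring
    _ = _ := by rw [hl]

end Run7.h867.SL
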