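import Mathlib
import Pool.Agent.Run7.h867.MZ.Words
import Pool.Agent.Run7.h867.MZ.Ineq2
import Pool.Agent.Run7.h867.MZ.Slice

/-!
# Anti-concentration of the multiple zeta values of a given weight and depth (helper867)
-/

set_option autoImplicit false

namespace Run7.h867.MZ

open Finset Filter Topology Run7.h867.AM

theorem np_append (u v : List Lt) : np (u ++ v) = np u + np v := by
  induction u with
  | nil => simp [np]
  | cons a u ih => cases a <;> (simp only [np, List.cons_append, ih]; try omega)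

theorem cp_append (u v : List Lt) : cp (u ++ v) = cp u + cp v := by
  induction u with
  | nil => simp [cp]
  | cons a u ih => cases a <;> simp only [cp, List.cons_append, ih] <;> omega

/-- changing letters `z` into `p` in a block `B` after the first letter at least doubles the value, if there are
`3 m` letters `p` after the block -/
theorem block2 {m : ℕ} {C : List Lt} (hC : Good C) (hCne : C ≠ []) (hCp : 3 * m ≤ cp C) {B B' : List Lt}
    (h : List.Forall₂ Rp B B') : ∀ (A : List Lt), np (Lt.z :: A) + B.length ≤ m + 1 →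
      V (Lt.z :: A ++ (B ++ C)) ≤ V (Lt.z :: A ++ (B' ++ C)) ∧
      (B ≠ B' → 2 * V (Lt.z :: A ++ (B ++ C)) ≤ V (Lt.z :: A ++ (B' ++ C))) := by
  induction h with
  | nil => intro A _; exact ⟨le_rfl, fun h => absurd rfl h⟩
  | @cons a b B B' hab hBB ih =>
    intro A hA
    rw [List.length_cons] at hA
    have hnp : ∀ c : Lt, np (Lt.z :: (A ++ [c])) + B.length ≤ m + 1 := by
      intro c
      have e : Lt.z :: (A ++ [c]) = (Lt.z :: A) ++ [c] := by simp
      rw [e, np_append]
      have : np [c] ≤ 1 := by cases c <;> simp [np]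
      omega
    have happ : ∀ (c : Lt) (D : List Lt), Lt.z :: A ++ (c :: D ++ C) = Lt.z :: (A ++ [c]) ++ (D ++ C) := by
      intro c D; simp
    rcases hab with hab | ⟨ha, hb⟩
    · subst hab
      have h1 := ih (A ++ [a]) (hnp a)
      rw [happ, happ]
      exact ⟨h1.1, fun hne => h1.2 fun h => hne (by rw [h])⟩
    · subst ha hb
      have h1 := (ih (A ++ [Lt.p]) (hnp Lt.p)).1
      have hv : Good (B ++ C) := good_app hC hCne B
      have hvne : B ++ C ≠ [] := by simp [hCne]
      have h2 := V_step2 hv hvne (a := Lt.z) (by simp) A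
      have hP : 0 < V (Lt.z :: A ++ Lt.p :: (B ++ C)) := V_pos (by simp) (good_app (good_cons hv hvne _) (by simp) (Lt.z :: A))
      have hZ : 0 < V (Lt.z :: A ++ Lt.z :: (B ++ C)) := V_pos (by simp) (good_app (good_cons hv hvne _) (by simp) (Lt.z :: A))
      have h3 : 1 ≤ np (Lt.z :: A) := by simp [np]
      have h4 : 3 * np (Lt.z :: A) ≤ cp (B ++ C) := by
        rw [cp_append]
        omega
      have h5 : 2 * V (Lt.z :: A ++ Lt.z :: (B ++ C)) ≤ V (Lt.z :: A ++ Lt.p :: (B ++ C)) := by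
        obtain ⟨d, hd⟩ : ∃ d : ℝ, d = (np (Lt.z :: A) : ℝ) := ⟨_, rfl⟩
        obtain ⟨x, hx⟩ : ∃ x : ℝ, x = V (Lt.z :: A ++ Lt.p :: (B ++ C)) := ⟨_, rfl⟩
        obtain ⟨y, hy⟩ : ∃ y : ℝ, y = V (Lt.z :: A ++ Lt.z :: (B ++ C)) := ⟨_, rfl⟩
        rw [← hd, ← hx, ← hy] at h2
        rw [← hy] at hZ
        rw [← hx, ← hy]
        have h6 : (3 : ℝ) * d ≤ cp (B ++ C) := by
          rw [hd]
          exact_mod_cast h4
        have h7 : (0 : ℝ) < d := by rw [hd]; exact_mod_cast h3
        have h8 : 3 * d * y ≤ d * (y + x) := (mul_le_mul_of_nonneg_right h6 hZ.le).trans h2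
        have h9 : d * (2 * y) ≤ d * x := by linarith
        exact le_of_mul_le_mul_left h9 h7
      have e1 : Lt.z :: A ++ (Lt.z :: B ++ C) = Lt.z :: A ++ Lt.z :: (B ++ C) := by simp
      have e2 : Lt.z :: A ++ (Lt.p :: B' ++ C) = Lt.z :: (A ++ [Lt.p]) ++ (B' ++ C) := by simp
      have e3 : Lt.z :: A ++ Lt.p :: (B ++ C) = Lt.z :: (A ++ [Lt.p]) ++ (B ++ C) := by simp
      rw [e1, e2]
      rw [e3] at h5 hP
      have h6 : 2 * V (Lt.z :: A ++ Lt.z :: (B ++ C)) ≤ V (Lt.z :: (A ++ [Lt.p]) ++ (B' ++ C)) := h5.trans h1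
      exact ⟨by linarith, fun _ => h6⟩

/-- the letters of a function -/
def ltr {m : ℕ} (a : Fin m → Bool) : List Lt := List.ofFn fun i => bl (a i)

theorem ltr_succ {m : ℕ} (a : Fin (m + 1) → Bool) : ltr a = bl (a 0) :: ltr fun i => a i.succ := by
  unfold ltr
  rw [List.ofFn_succ]

theorem ltr_length {m : ℕ} (a : Fin m → Bool) : (ltr a).length = m := by simp [ltr]

theorem cp_ltr {m : ℕ} (a : Fin m → Bool) : cp (ltr a) = SL.tc a := by
  unfold SL.tc
  induction m with
  | zero => simp [ltr, cp]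
  | succ m ih =>
    rw [ltr_succ, Fin.sum_univ_succ]
    have h := ih fun i => a i.succ
    cases h0 : a 0 with
    | true =>
      show cp (ltr fun i => a i.succ) + 1 = _
      rw [h]
      simp
      ring
    | false =>
      show cp (ltr fun i => a i.succ) = _
      rw [h]
      simp

theorem cz_ltr {m : ℕ} (a : Fin m → Bool) : cz (ltr a) + SL.tc a = m := by
  unfold SL.tc
  induction m with
  | zero => simp [ltr, cz]
  | succ m ih =>
    rw [ltr_succ, Fin.sum_univ_succ]
    have h := ih fun i => a i.succ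
    cases h0 : a 0 with
    | true =>
      show cz (ltr fun i => a i.succ) + _ = _
      simp only [if_true]
      omega
    | false =>
      show cz (ltr fun i => a i.succ) + 1 + _ = _
      simp only [Bool.false_eq_true, if_false]
      omega

/-- the word of three functions -/
def W3 {m r : ℕ} (a b : Fin m → Bool) (c : Fin r → Bool) : List Lt :=
  Lt.z :: (ltr a ++ (ltr c ++ (ltr b ++ [Lt.p])))

theorem W3_pos {m r : ℕ} (a b : Fin m → Bool) (c : Fin r → Bool) : 0 < V (W3 a b c) := by
  have h1 : Good (ltr b ++ [Lt.p]) := good_snoc _ (by simp)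
  have h2 : Good (ltr c ++ (ltr b ++ [Lt.p])) := good_app h1 (by simp) _
  exact V_pos (by simp) (good_app h2 (by simp) (Lt.z :: ltr a))

theorem rp_ltr {m : ℕ} {b b' : Fin m → Bool} (h : ∀ i, b i = true → b' i = true) :
    List.Forall₂ Rp (ltr b) (ltr b') := rp_ofFn h

theorem ltr_inj {m : ℕ} {b b' : Fin m → Bool} (h : ltr b = ltr b') : b = b' := by
  have h3 := List.ofFn_injective h
  funext i
  have h4 := congrFun h3 i
  simp only [bl] at h4
  cases h5 : b i <;> cases h6 : b' i <;> simp_all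

theorem swap {m r : ℕ} {a a' b b' : Fin m → Bool} {c : Fin r → Bool} (ha : ∀ i, a i = true → a' i = true)
    (hb : ∀ i, b' i = true → b i = true)
    (h1 : 3 * m + SL.tc a ≤ SL.tc a + SL.tc b + SL.tc c + 1)
    (h2 : 3 * m + SL.tc a + SL.tc b + SL.tc c + (2 * m) ≤ SL.tc a + SL.tc b + (2 * m + r) + 1) (hne : a ≠ a') :
    2 * V (W3 a b c) ≤ V (W3 a' b' c) := by
  have hg1 : Good (ltr b ++ [Lt.p]) := good_snoc _ (by simp)
  have hg2 : Good (ltr c ++ (ltr b ++ [Lt.p])) := good_app hg1 (by simp) _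
  have hcp : 3 * m ≤ cp (ltr c ++ (ltr b ++ [Lt.p])) := by
    rw [cp_append, cp_append, cp_ltr, cp_ltr]
    have : cp [Lt.p] = 1 := rfl
    omega
  have s1 := (block2 hg2 (by simp) hcp (rp_ltr ha) [] (by
    rw [ltr_length]
    have : np [Lt.z] = 1 := rfl
    omega)).2 (fun h => hne (ltr_inj h))
  have hcz : 3 * m ≤ cz (Lt.z :: (ltr a' ++ ltr c)) := by
    have e : cz (Lt.z :: (ltr a' ++ ltr c)) = cz (ltr a' ++ ltr c) + 1 := rfl
    rw [e, cz_append]
    have := cz_ltr c
    omega
  have s2 := (block (m := m) (rp_ltr hb) (by rw [ltr_length]) (ltr a' ++ ltr c) hcz).1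
  have e1 : Lt.z :: [] ++ (ltr a ++ (ltr c ++ (ltr b ++ [Lt.p]))) = W3 a b c := rfl
  have e2 : Lt.z :: [] ++ (ltr a' ++ (ltr c ++ (ltr b ++ [Lt.p]))) = W3 a' b c := rfl
  have e3 : ∀ b : Fin m → Bool, Lt.z :: (ltr a' ++ ltr c) ++ (ltr b ++ [Lt.p]) = W3 a' b c := by
    intro b
    simp [W3]
  rw [e1, e2] at s1
  rw [e3, e3] at s2
  linarith

/-- the key of a pair -/
def key {m : ℕ} (P : Fin m → Bool × Bool) : Fin m → Option Bool :=
  fun i => if (P i).1 = (P i).2 then some (P i).1 else none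

/-- the pair for a key -/
theorem tc_key {m : ℕ} (P : Fin m → Bool × Bool) :
    SL.tc (fun i => (P i).1) + SL.tc (fun i => (P i).2) = SL.cnt (key P) := by
  unfold SL.tc SL.cnt key
  rw [← sum_add_distrib]
  refine sum_congr rfl fun i _ => ?_
  obtain ⟨x, y, h⟩ : ∃ x y, P i = (x, y) := ⟨_, _, rfl⟩
  simp only [h]
  cases x <;> cases y <;> simp [SL.vl]

theorem M_card {m : ℕ} (k : Fin m → Option Bool) : Fintype.card {i : Fin m // k i = none} = SL.M k := by
  unfold SL.M
  rw [Fintype.card_subtype, card_filter]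

/-- the logarithm -/
noncomputable def L3 {m r : ℕ} (P : Fin m → Bool × Bool) (c : Fin r → Bool) : ℝ :=
  Real.logb 2 (V (W3 (fun i => (P i).1) (fun i => (P i).2) c))

theorem sperner_slice {m r s : ℕ} (h1 : 5 * m ≤ s + 1) (h2 : 5 * m + s ≤ 2 * m + r + 1) (x : ℝ)
    (k : Fin m → Option Bool) (c : Fin r → Bool) :
    (#(univ.filter fun P : Fin m → Bool × Bool => (key P = k ∧
      SL.tc (fun i => (P i).1) + SL.tc (fun i => (P i).2) + SL.tc c = s) ∧ (x ≤ L3 P c ∧ L3 P c < x + 1)) : ℝ) ≤
      if SL.cnt k + SL.tc c = s then 2 ^ SL.M k / √((SL.M k : ℝ) + 1) else 0 := by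
  classical
  obtain ⟨S, hS⟩ : ∃ S : Finset (Fin m → Bool × Bool), S = univ.filter fun P : Fin m → Bool × Bool => (key P = k ∧
      SL.tc (fun i => (P i).1) + SL.tc (fun i => (P i).2) + SL.tc c = s) ∧ (x ≤ L3 P c ∧ L3 P c < x + 1) := ⟨_, rfl⟩
  rw [← hS]
  have hSm : ∀ P ∈ S, (key P = k ∧ SL.tc (fun i => (P i).1) + SL.tc (fun i => (P i).2) + SL.tc c = s) ∧
      (x ≤ L3 P c ∧ L3 P c < x + 1) := by
    intro P hP
    rw [hS, mem_filter] at hP
    exact hP.2
  by_cases hc : SL.cnt k + SL.tc c = s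
  swap
  · rw [if_neg hc]
    have : S = ∅ := by
      rw [Finset.eq_empty_iff_forall_notMem]
      intro P hP
      have h3 := (hSm P hP).1
      rw [tc_key, h3.1] at h3
      exact hc h3.2
    rw [this]
    simp
  rw [if_pos hc]
  refine le_trans ?_ (choose_half_le (SL.M k))
  rw [Nat.cast_le, ← M_card]
  obtain ⟨Q, hQ⟩ : ∃ Q : (Fin m → Bool × Bool) → Finset {i : Fin m // k i = none},
      Q = fun P => univ.filter fun i => (P i).1 = true := ⟨_, rfl⟩
  have hQm : ∀ P (i : {i : Fin m // k i = none}), i ∈ Q P ↔ (P i).1 = true := by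
    intro P i; rw [hQ]; simp
  have hkey : ∀ P ∈ S, ∀ i, (k i = none → (P i).2 = !(P i).1) ∧ (∀ b, k i = some b → (P i).1 = b ∧ (P i).2 = b) := by
    intro P hP i
    have h3 := congrFun (hSm P hP).1.1 i
    unfold key at h3
    rcases hPi : P i with ⟨u, v⟩
    rw [hPi] at h3
    simp only at h3
    constructor
    · intro hn
      rw [hn] at h3
      cases u <;> cases v <;> simp at h3 ⊢
    · intro b hb
      rw [hb] at h3
      cases u <;> cases v <;> simp at h3 ⊢ <;> exact h3
  -- comparison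
  have hcmp : ∀ P ∈ S, ∀ P' ∈ S, Q P ⊆ Q P' → P ≠ P' → L3 P c + 1 ≤ L3 P' c := by
    intro P hP P' hP' hsub hne
    have ha : ∀ i, (P i).1 = true → (P' i).1 = true := by
      intro i hi
      cases hk : k i with
      | none => exact (hQm P' ⟨i, hk⟩).1 (hsub ((hQm P ⟨i, hk⟩).2 hi))
      | some b =>
        rw [((hkey P' hP' i).2 b hk).1, ← ((hkey P hP i).2 b hk).1]
        exact hi
    have hb : ∀ i, (P' i).2 = true → (P i).2 = true := by
      intro i hi
      cases hk : k i with
      | none =>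
        have e1 := (hkey P hP i).1 hk
        have e2 := (hkey P' hP' i).1 hk
        rw [e2] at hi
        rw [e1]
        cases h5 : (P i).1 with
        | true =>
          have := ha i h5
          rw [this] at hi
          simp at hi
        | false => rfl
      | some b =>
        rw [((hkey P hP i).2 b hk).2, ← ((hkey P' hP' i).2 b hk).2]
        exact hi
    have hne' : (fun i => (P i).1) ≠ fun i => (P' i).1 := by
      intro h
      apply hne
      funext i
      have h3 : (P i).1 = (P' i).1 := congrFun h i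
      refine Prod.ext h3 ?_
      cases hk : k i with
      | none => rw [(hkey P hP i).1 hk, (hkey P' hP' i).1 hk, h3]
      | some b => rw [((hkey P hP i).2 b hk).2, ((hkey P' hP' i).2 b hk).2]
    have hsum := (hSm P hP).1.2
    have hta : SL.tc (fun i => (P i).1) ≤ m := by
      have := cz_ltr (fun i => (P i).1)
      omega
    have h3 := swap (a := fun i => (P i).1) (a' := fun i => (P' i).1) (b := fun i => (P i).2)
      (b' := fun i => (P' i).2) (c := c) ha hb (by omega) (by omega) hne'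
    have h4 := W3_pos (fun i => (P i).1) (fun i => (P i).2) c
    have h5 := Real.logb_le_logb_of_le (b := 2) (by norm_num) (by positivity) h3
    rw [Real.logb_mul (by norm_num) h4.ne', Real.logb_self_eq_one (by norm_num)] at h5
    unfold L3
    linarith
  have hinj : Set.InjOn Q S := by
    intro P hP P' hP' h
    by_contra hne
    have h3 := hcmp P hP P' hP' h.subset hne
    have h4 := (hSm P hP).2
    have h5 := (hSm P' hP').2
    linarith [h4.1, h5.2]
  rw [← card_image_of_injOn hinj]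
  have hanti : IsAntichain (· ⊆ ·) (SetLike.coe (S.image Q)) := by
    intro X hX Y hY hne hsub
    rw [SetLike.mem_coe, mem_image] at hX hY
    obtain ⟨P, hP, rfl⟩ := hX
    obtain ⟨P', hP', rfl⟩ := hY
    have h3 := hcmp P hP P' hP' hsub (fun h => hne (by rw [h]))
    have h4 := (hSm P hP).2
    have h5 := (hSm P' hP').2
    linarith [h4.1, h5.2]
  exact hanti.sperner

/-- the words with `s` letters `p` in the middle -/
theorem slice_words {m r s : ℕ} (hs : s ≤ 2 * m + r) (h1 : 5 * m ≤ s + 1) (h2 : 5 * m + s ≤ 2 * m + r + 1)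
    (x : ℝ) :
    (#(univ.filter fun g : (Fin m → Bool × Bool) × (Fin r → Bool) =>
      SL.tc (fun i => (g.1 i).1) + SL.tc (fun i => (g.1 i).2) + SL.tc g.2 = s ∧
        (x ≤ L3 g.1 g.2 ∧ L3 g.1 g.2 < x + 1)) : ℝ) ≤ √(SL.rho m r s) * (2 * m + r).choose s := by
  classical
  refine le_trans ?_ (SL.A_sqrt m r s hs)
  obtain ⟨S, hS⟩ : ∃ S : Finset ((Fin m → Bool × Bool) × (Fin r → Bool)), S = univ.filter fun g =>
      SL.tc (fun i => (g.1 i).1) + SL.tc (fun i => (g.1 i).2) + SL.tc g.2 = s ∧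
        (x ≤ L3 g.1 g.2 ∧ L3 g.1 g.2 < x + 1) := ⟨_, rfl⟩
  rw [← hS]
  have e1 : #S = ∑ q : (Fin m → Option Bool) × (Fin r → Bool), #(S.filter fun g => (key g.1, g.2) = q) :=
    card_eq_sum_card_fiberwise fun g _ => mem_univ _
  rw [e1]
  push_cast
  unfold SL.A
  rw [Fintype.sum_prod_type]
  refine sum_le_sum fun k _ => sum_le_sum fun c _ => ?_
  refine le_trans ?_ (sperner_slice h1 h2 x k c)
  rw [Nat.cast_le]
  refine card_le_card_of_injOn (fun g => g.1) ?_ ?_
  · intro g hg
    rw [mem_coe, mem_filter, hS, mem_filter] at hg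
    obtain ⟨⟨-, hg1, hg2⟩, hg3⟩ := hg
    have hk := (Prod.ext_iff.1 hg3).1
    have hc := (Prod.ext_iff.1 hg3).2
    simp only at hk hc
    rw [mem_coe, mem_filter, ← hc]
    exact ⟨mem_univ _, ⟨hk, hg1⟩, hg2⟩
  · intro g hg g' hg' h
    rw [mem_coe, mem_filter] at hg hg'
    have hc := (Prod.ext_iff.1 hg.2).2
    have hc' := (Prod.ext_iff.1 hg'.2).2
    simp only at hc hc' h
    exact Prod.ext h (hc.trans hc'.symm)

end Run7.h867.MZ
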