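import Mathlib
import Pool.Agent.Run7.h867.AM.Tuple

/-!
# Typical tuples of numbers with spread logarithms satisfy no polynomial relation (helper867)

Let `G_1, ..., G_N` be finite sets of indices of nonzero real numbers such that for all `x` at most the proportion `κ`
of the numbers has `log_2 |v|` in `[x, x + 1)`.  Then for all but the proportion `C(|S|, 2) (2 log_2 (|S| H) + 1) κ` of
the tuples all polynomials with monomials in `S` and integer coefficients at most `H` in absolute value are large.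
-/

set_option autoImplicit false

namespace Run7.h867.GT

open Finset

variable {α : Type*} [DecidableEq α]

theorem anti_Icc (G : Finset α) (f : α → ℝ) (κ : ℝ) (hκ : 0 ≤ κ)
    (h : ∀ x : ℝ, (#(G.filter fun l => x ≤ f l ∧ f l < x + 1) : ℝ) ≤ #G * κ) (y L : ℝ) (hL : 0 ≤ L) :
    (#(G.filter fun l => y ≤ f l ∧ f l ≤ y + L) : ℝ) ≤ (L + 1) * (#G * κ) := by
  classical
  have h1 : G.filter (fun l => y ≤ f l ∧ f l ≤ y + L) ⊆
      (range (⌊L⌋₊ + 1)).biUnion fun k => G.filter fun l => y + (k : ℝ) ≤ f l ∧ f l < y + (k : ℝ) + 1 := by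
    intro l hl
    rw [mem_filter] at hl
    rw [mem_biUnion]
    refine ⟨⌊f l - y⌋₊, ?_, ?_⟩
    · rw [mem_range]
      have : ⌊f l - y⌋₊ ≤ ⌊L⌋₊ := Nat.floor_le_floor (by linarith [hl.2.2])
      omega
    · rw [mem_filter]
      refine ⟨hl.1, ?_, ?_⟩
      · have := Nat.floor_le (a := f l - y) (by linarith [hl.2.1])
        linarith
      · have := Nat.lt_floor_add_one (f l - y)
        linarith
  calc (#(G.filter fun l => y ≤ f l ∧ f l ≤ y + L) : ℝ)
      ≤ ∑ k ∈ range (⌊L⌋₊ + 1), (#(G.filter fun l => y + (k : ℝ) ≤ f l ∧ f l < y + (k : ℝ) + 1) : ℝ) := by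
        exact_mod_cast (card_le_card h1).trans card_biUnion_le
    _ ≤ ∑ k ∈ range (⌊L⌋₊ + 1), #G * κ := sum_le_sum fun k _ => h (y + k)
    _ = (⌊L⌋₊ + 1) * (#G * κ) := by rw [sum_const, card_range, nsmul_eq_mul]; push_cast; ring
    _ ≤ (L + 1) * (#G * κ) := by
        have h2 := Nat.floor_le hL
        gcongr

theorem fiber {N : ℕ} (G : Fin N → Finset α) (hG : ∀ i, (G i).Nonempty) (B : Finset (Fin N → α))
    (hB : B ⊆ Fintype.piFinset G) (i0 : Fin N) (b : ℝ) (hb0 : 0 ≤ b)
    (hb : ∀ u ∈ B, (#((G i0).filter fun x => Function.update u i0 x ∈ B) : ℝ) ≤ b) :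
    (#B : ℝ) * #(G i0) ≤ b * ∏ i, (#(G i) : ℝ) := by
  classical
  obtain ⟨a0, ha0⟩ := hG i0
  obtain ⟨φ, hφ⟩ : ∃ φ : (Fin N → α) → (Fin N → α), φ = fun u => Function.update u i0 a0 := ⟨_, rfl⟩
  have h1 : (#B : ℝ) = ∑ c ∈ B.image φ, (#(B.filter fun u => φ u = c) : ℝ) := by
    exact_mod_cast card_eq_sum_card_image φ B
  have h2 : ∀ c ∈ B.image φ, (#(B.filter fun u => φ u = c) : ℝ) ≤ b := by
    intro c hc
    rw [mem_image] at hc
    obtain ⟨u', hu', rfl⟩ := hc
    refine le_trans ?_ (hb u' hu')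
    rw [Nat.cast_le]
    have hupd : ∀ u, φ u = φ u' → u = Function.update u' i0 (u i0) := by
      intro u h
      funext j
      by_cases hj : j = i0
      · subst hj; simp
      · rw [Function.update_of_ne hj]
        have := congrFun h j
        rw [hφ] at this
        simpa [Function.update_of_ne hj] using this
    refine card_le_card_of_injOn (fun u => u i0) ?_ ?_
    · intro u hu
      rw [mem_coe, mem_filter] at hu
      rw [mem_coe, mem_filter]
      refine ⟨(Fintype.mem_piFinset.1 (hB hu.1)) i0, ?_⟩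
      rw [← hupd u hu.2]
      exact hu.1
    · intro u hu u2 hu2 h
      rw [mem_coe, mem_filter] at hu hu2
      rw [hupd u hu.2, hupd u2 hu2.2]
      simp only at h
      rw [h]
  have h3 : B.image φ ⊆ Fintype.piFinset fun i => if i = i0 then {a0} else G i := by
    intro c hc
    rw [mem_image] at hc
    obtain ⟨u, hu, rfl⟩ := hc
    rw [Fintype.mem_piFinset]
    intro i
    rw [hφ]
    by_cases hi : i = i0
    · subst hi; simp
    · simp only [if_neg hi, Function.update_of_ne hi]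
      exact (Fintype.mem_piFinset.1 (hB hu)) i
  have h4 : (#(B.image φ) : ℝ) * #(G i0) ≤ ∏ i, (#(G i) : ℝ) := by
    have h5 := card_le_card h3
    rw [Fintype.card_piFinset] at h5
    have h6 : (∏ i, #(if i = i0 then {a0} else G i)) * #(G i0) = ∏ i, #(G i) := by
      rw [← Finset.mul_prod_erase univ (fun i => #(if i = i0 then {a0} else G i)) (mem_univ i0),
        ← Finset.mul_prod_erase univ (fun i => #(G i)) (mem_univ i0)]
      simp only [if_true, card_singleton, one_mul]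
      rw [mul_comm]
      congr 1
      refine prod_congr rfl fun i hi => ?_
      rw [if_neg (ne_of_mem_erase hi)]
    calc (#(B.image φ) : ℝ) * #(G i0) = ((#(B.image φ) * #(G i0) : ℕ) : ℝ) := by push_cast; ring
      _ ≤ ((∏ i, #(G i) : ℕ) : ℝ) := by
          rw [← h6]
          exact Nat.cast_le.2 (Nat.mul_le_mul_right _ h5)
      _ = _ := by push_cast; rfl
  calc (#B : ℝ) * #(G i0) ≤ (∑ c ∈ B.image φ, b) * #(G i0) := by
        rw [h1]
        exact mul_le_mul_of_nonneg_right (sum_le_sum h2) (Nat.cast_nonneg _)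
    _ = b * ((#(B.image φ) : ℝ) * #(G i0)) := by rw [sum_const, nsmul_eq_mul]; ring
    _ ≤ _ := mul_le_mul_of_nonneg_left h4 hb0

theorem pair_bad {N : ℕ} (G : Fin N → Finset α) (hG : ∀ i, (G i).Nonempty) (f : α → ℝ) (κ : ℝ) (hκ : 0 ≤ κ)
    (h : ∀ i, ∀ x : ℝ, (#((G i).filter fun l => x ≤ f l ∧ f l < x + 1) : ℝ) ≤ #(G i) * κ)
    (γ : Fin N → ℤ) (hγ : γ ≠ 0) (K : ℝ) (hK : 0 ≤ K) :
    (#((Fintype.piFinset G).filter fun u => |∑ i, (γ i : ℝ) * f (u i)| ≤ K) : ℝ) ≤
      (2 * K + 1) * κ * ∏ i, (#(G i) : ℝ) := by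
  classical
  obtain ⟨i0, hi0⟩ := Function.ne_iff.1 hγ
  have hi0' : (γ i0 : ℝ) ≠ 0 := by exact_mod_cast hi0
  have hi1 : 1 ≤ |(γ i0 : ℝ)| := by
    have : 1 ≤ |γ i0| := Int.one_le_abs hi0
    exact_mod_cast this
  have h1 := fiber G hG ((Fintype.piFinset G).filter fun u => |∑ i, (γ i : ℝ) * f (u i)| ≤ K)
    (filter_subset _ _) i0 ((2 * K + 1) * (#(G i0) * κ)) (by positivity) (by
      intro u hu
      obtain ⟨c, hc⟩ : ∃ c : ℝ, c = ∑ i ∈ univ.erase i0, (γ i : ℝ) * f (u i) := ⟨_, rfl⟩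
      have hI := anti_Icc (G i0) f κ hκ (h i0) (-c / γ i0 - K) (2 * K) (by positivity)
      refine le_trans ?_ hI
      rw [Nat.cast_le]
      refine card_le_card ?_
      intro x hx
      rw [mem_filter, mem_filter] at hx
      rw [mem_filter]
      obtain ⟨hx1, -, hx2⟩ := hx
      rw [← Finset.add_sum_erase univ _ (mem_univ i0)] at hx2
      have h2 : ∑ i ∈ univ.erase i0, (γ i : ℝ) * f (Function.update u i0 x i) = c := by
        rw [hc]
        refine sum_congr rfl fun i hi => ?_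
        rw [Function.update_of_ne (ne_of_mem_erase hi)]
      rw [h2, Function.update_self] at hx2
      have h3 : (γ i0 : ℝ) * f x + c = γ i0 * (f x + c / γ i0) := by field_simp
      rw [h3, abs_mul] at hx2
      have h4 : |f x + c / γ i0| ≤ K := by
        refine le_trans ?_ hx2
        exact le_mul_of_one_le_left (abs_nonneg _) hi1
      rw [abs_le] at h4
      refine ⟨hx1, ?_, ?_⟩
      · rw [neg_div]; linarith [h4.1]
      · rw [neg_div]; linarith [h4.2])
  have h3 : (0 : ℝ) < #(G i0) := by exact_mod_cast card_pos.2 (hG i0)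
  refine le_of_mul_le_mul_right ?_ h3
  calc _ ≤ _ := h1
    _ = _ := by ring

/-- the tuple `v` has a polynomial with monomials in `S`, coefficients at most `H` in absolute value, and a
small value -/
def Bad {N : ℕ} (S : Finset (Fin N →₀ ℕ)) (H : ℕ) (v : Fin N → ℝ) : Prop :=
  ∃ P : MvPolynomial (Fin N) ℤ, P ≠ 0 ∧ P.support ⊆ S ∧ (∀ a, |P.coeff a| ≤ H) ∧
    (MvPolynomial.aeval v P = 0 ∨ ∃ a ∈ P.support, (#S : ℝ) * |MvPolynomial.aeval v P| < |∏ i, v i ^ a i|)

open Classical in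
theorem main {N : ℕ} (G : Fin N → Finset α) (hG : ∀ i, (G i).Nonempty) (val : α → ℝ)
    (hval : ∀ i, ∀ l ∈ G i, val l ≠ 0) (κ : ℝ) (hκ : 0 ≤ κ)
    (h : ∀ i, ∀ x : ℝ, (#((G i).filter fun l => x ≤ Real.logb 2 |val l| ∧ Real.logb 2 |val l| < x + 1) : ℝ) ≤
      #(G i) * κ)
    (S : Finset (Fin N →₀ ℕ)) (H : ℕ) (hH : 1 ≤ H) (hS : S.Nonempty) :
    (#((Fintype.piFinset G).filter fun u => Bad S H fun i => val (u i)) : ℝ) ≤
      ((#S).choose 2 : ℝ) * (2 * Real.logb 2 (#S * H) + 1) * κ * ∏ i, (#(G i) : ℝ) := by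
  obtain ⟨K, hK⟩ : ∃ K : ℝ, K = Real.logb 2 (#S * H) := ⟨_, rfl⟩
  have hK0 : 0 ≤ K := by
    rw [hK]
    refine Real.logb_nonneg (by norm_num) ?_
    have h1 : 1 ≤ #S * H := Nat.one_le_iff_ne_zero.2 (Nat.mul_ne_zero (card_pos.2 hS).ne' (by omega))
    exact_mod_cast h1
  rw [← hK]
  obtain ⟨f, hf⟩ : ∃ f : α → ℝ, f = fun l => Real.logb 2 |val l| := ⟨_, rfl⟩
  have h' : ∀ i, ∀ x : ℝ, (#((G i).filter fun l => x ≤ f l ∧ f l < x + 1) : ℝ) ≤ #(G i) * κ := by
    rw [hf]; exact h
  obtain ⟨U, hU⟩ : ∃ U : Finset (Fin N → α), U = Fintype.piFinset G := ⟨_, rfl⟩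
  rw [← hU]
  obtain ⟨E, hE⟩ : ∃ E : Finset (Fin N →₀ ℕ) → Finset (Fin N → α), E = fun T => U.filter fun u =>
      ∃ a ∈ T, ∃ b ∈ T, a ≠ b ∧ |∑ i, (((a i : ℤ) - (b i : ℤ) : ℤ) : ℝ) * f (u i)| ≤ K := ⟨_, rfl⟩
  have h1 : (U.filter fun u => Bad S H fun i => val (u i)) ⊆ (S.powersetCard 2).biUnion E := by
    intro u hu
    rw [mem_filter] at hu
    obtain ⟨hu1, P, hP0, hP, hc, hor⟩ := hu
    rw [mem_biUnion]
    by_contra hno
    push Not at hno
    have hv : ∀ i, val (u i) ≠ 0 := by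
      intro i
      rw [hU] at hu1
      exact hval i _ (Fintype.mem_piFinset.1 hu1 i)
    have hdom := Run7.h867.AM.dominate S H hH (fun i => val (u i)) hv (by
      intro a ha b hb hab
      have h2 := hno {a, b} (by
        rw [mem_powersetCard]
        refine ⟨?_, card_pair hab⟩
        intro x hx
        rw [mem_insert, mem_singleton] at hx
        rcases hx with rfl | rfl
        · exact ha
        · exact hb)
      rw [hE, mem_filter] at h2
      rw [← hK]
      by_contra h3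
      rw [not_lt] at h3
      refine h2 ⟨hu1, a, by simp, b, by simp, hab, ?_⟩
      rw [hf]
      exact h3) P hP hc
    rcases hor with h0 | ⟨a, ha, hlt⟩
    · obtain ⟨a, ha⟩ : P.support.Nonempty := MvPolynomial.support_nonempty.2 hP0
      have h4 := hdom a ha
      rw [h0, abs_zero, mul_zero] at h4
      exact absurd h4 (not_le.2 (abs_pos.2 (prod_ne_zero_iff.2 fun i _ => pow_ne_zero _ (hv i))))
    · exact absurd (hdom a ha) (not_le.2 hlt)
  have h2 : ∀ T ∈ S.powersetCard 2, (#(E T) : ℝ) ≤ (2 * K + 1) * κ * ∏ i, (#(G i) : ℝ) := by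
    intro T hT
    rw [mem_powersetCard] at hT
    obtain ⟨a, b, hab, rfl⟩ := card_eq_two.1 hT.2
    refine le_trans ?_ (pair_bad G hG f κ hκ h' (fun i => (a i : ℤ) - (b i : ℤ)) ?_ K hK0)
    · rw [Nat.cast_le]
      refine card_le_card ?_
      intro u hu
      rw [hE, mem_filter] at hu
      rw [mem_filter, ← hU]
      obtain ⟨hu1, c, hc, d, hd, hne, hle⟩ := hu
      refine ⟨hu1, ?_⟩
      rw [mem_insert, mem_singleton] at hc hd
      rcases hc with rfl | rfl <;> rcases hd with rfl | rfl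
      · exact absurd rfl hne
      · exact hle
      · have h4 : ∑ i, (((d i : ℤ) - (c i : ℤ) : ℤ) : ℝ) * f (u i) =
            -∑ i, (((c i : ℤ) - (d i : ℤ) : ℤ) : ℝ) * f (u i) := by
          rw [← sum_neg_distrib]
          refine sum_congr rfl fun i _ => ?_
          push_cast
          ring
        rw [h4, abs_neg]
        exact hle
      · exact absurd rfl hne
    · intro h
      apply hab
      ext i
      have := congrFun h i
      simp only [Pi.zero_apply] at this
      omega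
  calc (#(U.filter fun u => Bad S H fun i => val (u i)) : ℝ) ≤ ∑ T ∈ S.powersetCard 2, (#(E T) : ℝ) := by
        exact_mod_cast (card_le_card h1).trans card_biUnion_le
    _ ≤ ∑ T ∈ S.powersetCard 2, (2 * K + 1) * κ * ∏ i, (#(G i) : ℝ) := sum_le_sum h2
    _ = _ := by rw [sum_const, card_powersetCard, nsmul_eq_mul]; ring

end Run7.h867.GT
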