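import Mathlib
import Pool.Agent.Run7.h867.MZ.Depth
import Pool.Agent.Run7.h867.MZ.Adm

/-!
# The indices of a given weight and depth (helper867)
-/

set_option autoImplicit false

namespace Run7.h867.MZ

open Finset Filter Topology Run7.h867.AM

theorem ix_length (u : List Lt) : ∀ (s : ℤ) (k : ℕ), (ix s k u).length = dep u := by
  induction u with
  | nil => intro s k; rfl
  | cons a u ih =>
    intro s k
    cases a with
    | z => exact ih s (k + 1)
    | p =>
      show (ix 1 0 u).length + 1 = dep u + 1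
      rw [ih]
    | m =>
      show (ix (-1) 0 u).length + 1 = dep u + 1
      rw [ih]

theorem dep_append (u v : List Lt) : dep (u ++ v) = dep u + dep v := by
  induction u with
  | nil => simp [dep]
  | cons a u ih => cases a <;> (simp only [dep, List.cons_append, ih]; try omega)

theorem dep_ltr {m : ℕ} (a : Fin m → Bool) : dep (ltr a) = SL.tc a := by
  unfold SL.tc
  induction m with
  | zero => simp [ltr, dep]
  | succ m ih =>
    rw [ltr_succ, Fin.sum_univ_succ]
    have h := ih fun i => a i.succ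
    cases h0 : a 0 with
    | true =>
      show dep (ltr fun i => a i.succ) + 1 = _
      rw [h]
      simp
      ring
    | false =>
      show dep (ltr fun i => a i.succ) = _
      rw [h]
      simp

theorem jdx_length {n : ℕ} (g : Fin n → Bool) : (jdx g).length = SL.tc g + 1 := by
  unfold jdx
  rw [List.length_map, ix_length]
  have h : wrd g = Lt.z :: (ltr g ++ [Lt.p]) := rfl
  rw [h]
  show dep (ltr g ++ [Lt.p]) = _
  rw [dep_append, dep_ltr]
  rfl

/-- the indices of weight `n + 2` and depth `s + 1` -/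
noncomputable def AD (n s : ℕ) : Finset (List ℕ) := (A n).filter fun l => l.length = s + 1

theorem mem_AD {n s : ℕ} {l : List ℕ} : l ∈ AD n s ↔ l ∈ adm (n + 2) ∧ l.length = s + 1 := by
  unfold AD
  rw [mem_filter, mem_A]

theorem card_tc (n s : ℕ) : #(univ.filter fun g : Fin n → Bool => SL.tc g = s) = n.choose s := by
  have h := SL.A_two 0 n s
  unfold SL.A at h
  have e1 : ∀ k : Fin 0 → Option Bool, SL.cnt k = 0 := by intro k; simp [SL.cnt]
  have e2 : ∀ k : Fin 0 → Option Bool, SL.M k = 0 := by intro k; simp [SL.M]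
  simp only [e1, e2, zero_add, pow_zero] at h
  rw [sum_const, card_univ, Fintype.card_fun, Fintype.card_fin, pow_zero, one_smul, ← sum_filter, sum_const,
    nsmul_eq_mul, mul_one] at h
  have h2 : 2 * 0 + n = n := by omega
  rw [h2] at h
  exact_mod_cast h

theorem AD_image (n s : ℕ) : AD n s = (univ.filter fun g : Fin n → Bool => SL.tc g = s).image jdx := by
  classical
  ext l
  rw [mem_AD, mem_image]
  constructor
  · rintro ⟨h1, h2⟩
    obtain ⟨g, rfl⟩ := exists_jdx h1
    refine ⟨g, ?_, rfl⟩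
    rw [jdx_length] at h2
    rw [mem_filter]
    exact ⟨mem_univ _, by omega⟩
  · rintro ⟨g, hg, rfl⟩
    rw [mem_filter] at hg
    refine ⟨jdx_mem g, ?_⟩
    rw [jdx_length, hg.2]

theorem card_AD (n s : ℕ) : #(AD n s) = n.choose s := by
  classical
  rw [AD_image, card_image_of_injective _ jdx_inj, card_tc]

theorem rho_le {w d m r : ℕ} (hd : 1 ≤ d) (hdw : d + 1 ≤ w) (hm : m = min d (w - d) / 5)
    (hr : 2 * m + r + 2 = w) :
    √(SL.rho m r (d - 1)) ≤ √(5 * (w : ℝ)) / ((min d (w - d) : ℕ) : ℝ) := by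
  obtain ⟨μ, hμ⟩ : ∃ μ, μ = min d (w - d) := ⟨_, rfl⟩
  obtain ⟨ν, hν⟩ : ∃ ν, ν = max d (w - d) := ⟨_, rfl⟩
  rw [← hμ] at hm ⊢
  have hμ1 : 1 ≤ μ := by rw [hμ]; exact le_min hd (by omega)
  have hprod : d * (w - d) = μ * ν := by rw [hμ, hν, min_mul_max]
  have hνw : w ≤ 2 * ν := by
    have := le_max_left d (w - d)
    have := le_max_right d (w - d)
    omega
  have hm5 : μ ≤ 5 * (m + 1) := by omega
  have hμ0 : (0 : ℝ) < μ := by exact_mod_cast hμ1
  rw [le_div_iff₀ hμ0, ← Real.sqrt_sq hμ0.le, ← Real.sqrt_mul (by unfold SL.rho; positivity)]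
  refine Real.sqrt_le_sqrt ?_
  have e1 : (((d - 1 : ℕ) : ℝ) + 1) = d := by
    have : (d - 1) + 1 = d := by omega
    exact_mod_cast this
  have e2 : (((2 * m + r - (d - 1) : ℕ) : ℝ) + 1) = ((w - d : ℕ) : ℝ) := by
    have : (2 * m + r - (d - 1)) + 1 = w - d := by omega
    exact_mod_cast this
  have e3 : (((2 * m + r : ℕ) : ℝ) + 2) = w := by exact_mod_cast hr
  have e4 : (((2 * m + r : ℕ) : ℝ) + 1) ≤ w := by linarith
  have hdw' : ((d : ℝ) * ((w - d : ℕ) : ℝ)) = μ * ν := by exact_mod_cast hprod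
  have hνw' : (w : ℝ) ≤ 2 * ν := by exact_mod_cast hνw
  have hm5' : (μ : ℝ) ≤ 5 * ((m : ℝ) + 1) := by exact_mod_cast hm5
  have hw0 : (0 : ℝ) < w := by exact_mod_cast (by omega : 0 < w)
  have hν0 : (0 : ℝ) < ν := by linarith
  unfold SL.rho
  rw [e1, e2, e3, hdw', div_mul_eq_mul_div, div_le_iff₀ (by positivity)]
  calc (w : ℝ) * (((2 * m + r : ℕ) : ℝ) + 1) * (μ : ℝ) ^ 2 ≤ (w : ℝ) * w * (μ : ℝ) ^ 2 := by gcongr
    _ = (w : ℝ) * μ * ((μ : ℝ) * w) := by ring
    _ ≤ (w : ℝ) * μ * (5 * ((m : ℝ) + 1) * (2 * ν)) := by gcongr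
    _ = 5 * (w : ℝ) * (2 * ((m : ℝ) + 1) * (μ * ν)) := by ring

/-- the anti-concentration in the slice -/
theorem anti_AD {w d : ℕ} (hd : 1 ≤ d) (hdw : d + 1 ≤ w) (x : ℝ) :
    (#((AD (w - 2) (d - 1)).filter fun s => x ≤ Real.logb 2 |mz s| ∧ Real.logb 2 |mz s| < x + 1) : ℝ) ≤
      #(AD (w - 2) (d - 1)) * (√(5 * (w : ℝ)) / ((min d (w - d) : ℕ) : ℝ)) := by
  classical
  obtain ⟨m, hm⟩ : ∃ m, m = min d (w - d) / 5 := ⟨_, rfl⟩
  have hmin1 := min_le_left d (w - d)
  have hmin2 := min_le_right d (w - d)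
  obtain ⟨r, hr⟩ : ∃ r, w - 2 = m + (r + m) := ⟨w - 2 - 2 * m, by omega⟩
  have hr' : 2 * m + r + 2 = w := by omega
  have h1 := slice_words (m := m) (r := r) (s := d - 1) (by omega) (by omega) (by omega) x
  have h2 := rho_le hd hdw hm hr'
  rw [card_AD, hr]
  have e0 : m + (r + m) = 2 * m + r := by ring
  have h3 : √(SL.rho m r (d - 1)) * ((2 * m + r).choose (d - 1) : ℝ) ≤
      ((m + (r + m)).choose (d - 1) : ℝ) * (√(5 * (w : ℝ)) / ((min d (w - d) : ℕ) : ℝ)) := by
    rw [mul_comm, e0]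
    exact mul_le_mul_of_nonneg_left h2 (Nat.cast_nonneg _)
  refine le_trans ?_ (h1.trans h3)
  rw [Nat.cast_le]
  refine le_trans (card_le_card (t := (univ.filter fun g : Fin (m + (r + m)) → Bool => SL.tc g = d - 1 ∧
    (x ≤ Real.logb 2 (V (wrd g)) ∧ Real.logb 2 (V (wrd g)) < x + 1)).image jdx) ?_) (card_image_le.trans ?_)
  · intro s hs
    rw [mem_filter, AD_image, mem_image] at hs
    obtain ⟨⟨g, hg, rfl⟩, hs2⟩ := hs
    rw [mem_filter] at hg
    rw [abs_mz] at hs2
    rw [mem_image]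
    refine ⟨g, ?_, rfl⟩
    rw [mem_filter]
    exact ⟨mem_univ _, hg.2, hs2⟩
  · refine card_le_card_of_injOn (fun g => (fun i => (g (Fin.castAdd (r + m) i), g (Fin.natAdd m (Fin.natAdd r i))),
      fun i => g (Fin.natAdd m (Fin.castAdd m i)))) ?_ ?_
    · intro g hg
      rw [mem_coe, mem_filter] at hg
      rw [mem_coe, mem_filter]
      obtain ⟨-, hg1, hg2⟩ := hg
      have e1 : wrd g = W3 (fun i => g (Fin.castAdd (r + m) i)) (fun i => g (Fin.natAdd m (Fin.natAdd r i)))
          (fun i => g (Fin.natAdd m (Fin.castAdd m i))) := by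
        have e2 : wrd g = Lt.z :: (ltr g ++ [Lt.p]) := rfl
        have e3 : ltr g = ltr (fun i => g (Fin.castAdd (r + m) i)) ++
            (ltr (fun i => g (Fin.natAdd m (Fin.castAdd m i))) ++ ltr (fun i => g (Fin.natAdd m (Fin.natAdd r i)))) := by
          unfold ltr
          rw [List.ofFn_add, List.ofFn_add]
          rfl
        rw [e2, e3]
        unfold W3
        simp
      have e4 : SL.tc g = SL.tc (fun i => g (Fin.castAdd (r + m) i)) +
          SL.tc (fun i => g (Fin.natAdd m (Fin.natAdd r i))) + SL.tc (fun i => g (Fin.natAdd m (Fin.castAdd m i))) := by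
        unfold SL.tc
        rw [Fin.sum_univ_add, Fin.sum_univ_add]
        ring
      refine ⟨mem_univ _, ?_, ?_⟩
      · rw [← hg1, e4]
      · unfold L3
        simp only
        rw [← e1]
        exact hg2
    · intro g _ g' _ h
      have h1 := (Prod.ext_iff.1 h).1
      have h2 := (Prod.ext_iff.1 h).2
      simp only at h1 h2
      funext i
      refine Fin.addCases (fun j => ?_) (fun j => ?_) i
      · exact (Prod.ext_iff.1 (congrFun h1 j)).1
      · refine Fin.addCases (fun j => ?_) (fun j => ?_) j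
        · exact congrFun h2 j
        · exact (Prod.ext_iff.1 (congrFun h1 j)).2

end Run7.h867.MZ
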